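import Pool.Agent.Work.MP_8f87b2_top.TopId

/-!
MP_8f87b2_co, bottom of the directed road: the words of height `<= 2`. `U a = ()^a`; every word of height 2 is
`C(U a, x)`, `x` = `m` beads on the ring of `2 a + 1` holes, `2 a + m = k`; one T-cycle = all rotations.
-/

set_option autoImplicit false

namespace Pool.OddHC

open Finset BinaryTree Pool.OddHop

/-- `()^a` -/
def uT (a : ℕ) : BinaryTree Unit := lv a .nil

theorem uT_num (a : ℕ) : (uT a).numNodes = a := by
  unfold uT
  rw [lv_num]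
  rfl

theorem uT_pkn (a : ℕ) : pkn (uT a) = a := by
  unfold uT
  rw [lv_pkn]
  rfl

/-- `()^a` in `X a` -/
def uX (a : ℕ) : X a := ⟨uT a, mem_treesOfNumNodesEq.2 (uT_num a)⟩

theorem ht_low {t : BinaryTree Unit} (h : ht t ≤ 1) : t = uT t.numNodes := by
  induction t with
  | nil => rfl
  | node _ A B ihA ihB =>
    rw [ht] at h
    have hA : A = .nil := by
      cases A with
      | nil => rfl
      | node v C D =>
        have := ht_pos (t := BinaryTree.node v C D) (by simp)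
        omega
    subst hA
    have h1 := ihB (by omega)
    have e : (BinaryTree.node () .nil B).numNodes = B.numNodes + 1 := by
      change 0 + B.numNodes + 1 = _
      omega
    rw [e]
    change _ = BinaryTree.node () .nil (uT B.numNodes)
    rw [← h1]

theorem ht_lowX {a : ℕ} (u : X a) (h : ht u.1 ≤ 1) : u = uX a := by
  apply Subtype.ext
  have h1 := ht_low h
  rw [X_num] at h1
  exact h1

theorem ht_uT (a : ℕ) : ht (uT a) ≤ 1 := by
  induction a with
  | zero => exact Nat.zero_le _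
  | succ a ih =>
    change max (0 + 1) (ht (uT a)) ≤ 1
    omega

theorem ht_uT' (a : ℕ) (h : 1 ≤ a) : ht (uT a) = 1 := by
  obtain ⟨b, rfl⟩ : ∃ b, a = b + 1 := ⟨a - 1, by omega⟩
  change max (0 + 1) (ht (uT b)) = 1
  have := ht_uT b
  omega

theorem T_uX (a : ℕ) : TT (uX a) = uX a := by
  rw [TT_apply]
  exact ht_lowX _ (by rw [ht_TF]; exact ht_uT a)

/-- the word `C(()^a, x)` -/
def bw2 {a m k : ℕ} (hk : 2 * a + m = k) (x : Ms (2 * a + 1) m) : X k :=
  phi (uX a) x.1 (by rw [x.2]; change a + pkn (uT a) + m = k; rw [uT_pkn]; omega)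

theorem ht_bw2 {a m k : ℕ} (hk : 2 * a + m = k) (ha : 1 ≤ a) (x : Ms (2 * a + 1) m) :
    ht (bw2 hk x).1 = 2 := by
  change ht (ins (uT a) (lf x.1)) = 2
  rw [ht_ins _ _ (by rw [lf_length, uT_num]) ?_, ht_uT' a ha]
  intro h
  have := uT_num a
  rw [h] at this
  simp [BinaryTree.numNodes] at this
  omega

theorem pkn_bw2 {a m k : ℕ} (hk : 2 * a + m = k) (x : Ms (2 * a + 1) m) :
    pkn (bw2 hk x).1 = a + m := by
  change pkn (ins (uT a) (lf x.1)) = a + m
  rw [(ins_num _ _ (by rw [lf_length, uT_num])).2, uT_pkn, lf_sum, x.2]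

/-- one T-cycle = all rotations -/
theorem bw2_same {a m k : ℕ} (hk : 2 * a + m = k) (ha : 1 ≤ a) (x y : Ms (2 * a + 1) m) :
    (TT : Equiv.Perm (X k)).SameCycle (bw2 hk x) (bw2 hk y) ↔
      (Quotient.mk (msSetoid m (one_dvd (2 * a + 1))) x) = Quotient.mk _ y := by
  unfold bw2
  rw [same_fix ha _ (T_uX a)]
  constructor
  · rintro ⟨t, ht⟩
    apply Quotient.sound
    refine ⟨-t, ?_, fun z => ?_⟩
    · exact Subsingleton.elim _ _
    · rw [ht]
      simp only
      rw [neg_add_cancel_right]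
  · intro h
    obtain ⟨t, -, h1⟩ := Quotient.exact h
    refine ⟨-t, funext fun z => ?_⟩
    rw [← h1 (z + -t), neg_add_cancel_right]

/-- words of height 2 -/
theorem low_class {k : ℕ} (w : X k) (h : ht w.1 = 2) : ∃ (a m : ℕ) (hk : 2 * a + m = k)
    (x : Ms (2 * a + 1) m), 1 ≤ a ∧ w = bw2 hk x := by
  obtain ⟨j, u, x, hk, hw, h1, hj⟩ := red_ht w (by omega)
  have h2 : u = uX j := ht_lowX u (by omega)
  subst h2
  have h3 : pkn (uX j).1 = j := uT_pkn j
  have h4 : 2 * j + ∑ z, x z = k := by omega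
  exact ⟨j, ∑ z, x z, h4, ⟨x, rfl⟩, hj, hw⟩

/-- the class of a T-cycle of height 2 -/
noncomputable def bq {a m k : ℕ} (hk : 2 * a + m = k) (ha : 1 ≤ a)
    (q : Quotient (msSetoid m (one_dvd (2 * a + 1)))) : Cyc k :=
  Quotient.lift (fun x => cyc (bw2 hk x))
    (fun x y h => cyc_eq.2 ((bw2_same hk ha x y).2 (Quotient.sound h))) q

theorem bq_mk {a m k : ℕ} (hk : 2 * a + m = k) (ha : 1 ≤ a) (x : Ms (2 * a + 1) m) :
    bq hk ha (Quotient.mk _ x) = cyc (bw2 hk x) := rfl

theorem bq_inj {a m k : ℕ} (hk : 2 * a + m = k) (ha : 1 ≤ a) : Function.Injective (bq hk ha) := by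
  intro p q h
  obtain ⟨x, rfl⟩ := Quotient.exists_rep p
  obtain ⟨y, rfl⟩ := Quotient.exists_rep q
  exact (bw2_same hk ha x y).1 (cyc_eq.1 h)

end Pool.OddHC
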