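import Pool.Agent.Work.MP_8f87b2_top.Top8A
import Pool.Agent.Work.MP_8f87b2_bot.Bot1
import Pool.Agent.Work.MP_8f87b2_h3.Ends

/-!
MP_8f87b2_co, bottom: which links are used (parities), the classes, the near perfect matchings of the nodes.
-/

set_option autoImplicit false

namespace Pool.OddHC

open Finset BinaryTree Pool.OddHop

/-! ### Parities -/

/-- the number of T-cycles in the nodes `a, a+1, ..` (mod 2) -/
def su (k a : ℕ) : ℕ := ∑ b ∈ Ico a (k / 2 + 1), k.choose (2 * b)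

/-- the link `a -> a - 1` is used -/
def used (k a : ℕ) : Prop := Odd (su k a)

theorem su_succ {k a : ℕ} (h : a ≤ k / 2) : su k a = k.choose (2 * a) + su k (a + 1) := by
  unfold su
  rw [Finset.sum_eq_sum_Ico_succ_bot (by omega)]

theorem used_top (k : ℕ) : ¬ used k (k / 2 + 1) := by
  unfold used su
  rw [Ico_self, sum_empty]
  decide

theorem used_succ {k a : ℕ} (h : a ≤ k / 2) : (used k a ↔ ¬ (Odd (k.choose (2 * a)) ↔ used k (a + 1))) := by
  unfold used
  rw [su_succ h, Nat.odd_add, ← Nat.not_odd_iff_even]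
  tauto

theorem used_last {k : ℕ} : used k (k / 2) := by
  rw [used_succ le_rfl]
  have h1 := used_top k
  have h2 : Odd (k.choose (2 * (k / 2))) := by
    rcases Nat.mod_two_eq_zero_or_one k with h | h
    · have : 2 * (k / 2) = k := by omega
      rw [this, Nat.choose_self]
      decide
    · have e : k = 2 * (k / 2) + 1 := by omega
      have : k.choose (2 * (k / 2)) = k := by
        conv_lhs => rw [show k.choose (2 * (k / 2)) = (2 * (k / 2) + 1).choose (2 * (k / 2)) by rw [← e]]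
        rw [Nat.choose_succ_self_right, ← e]
      rw [this, Nat.odd_iff]
      exact h
  tauto

theorem sum_even_choose (k n : ℕ) :
    ∑ b ∈ range (n + 1), (k + 1).choose (2 * b) = ∑ j ∈ range (2 * n + 1), k.choose j := by
  induction n with
  | zero => simp
  | succ n ih =>
    rw [sum_range_succ, ih, show 2 * (n + 1) + 1 = 2 * n + 1 + 1 + 1 by ring]
    conv_rhs => rw [sum_range_succ, sum_range_succ]
    rw [show 2 * (n + 1) = (2 * n + 1) + 1 by ring, Nat.choose_succ_succ' k (2 * n + 1)]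
    ring

theorem used_one {k : ℕ} (hk : 2 ≤ k) : used k 1 := by
  obtain ⟨l, rfl⟩ : ∃ l, k = l + 2 := ⟨k - 2, by omega⟩
  have h1 := sum_even_choose (l + 1) ((l + 2) / 2)
  have h2 : ∑ j ∈ range (2 * ((l + 2) / 2) + 1), (l + 1).choose j = 2 ^ (l + 1) := by
    rw [← Nat.sum_range_choose]
    symm
    apply sum_subset
    · intro x hx
      rw [mem_range] at hx ⊢
      omega
    · intro x _ hx
      rw [mem_range] at hx
      exact Nat.choose_eq_zero_of_lt (by omega)
  rw [h2] at h1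
  have h3 : su (l + 2) 0 = 2 ^ (l + 1) := by
    unfold su
    rw [← h1, range_eq_Ico]
  rw [su_succ (by omega)] at h3
  unfold used
  have h4 : Even (2 ^ (l + 1)) := by
    rw [pow_succ]
    exact ⟨2 ^ l, by ring⟩
  rw [← h3] at h4
  simp only [mul_zero, Nat.choose_zero_right, zero_add] at h4
  rw [add_comm, Nat.even_add_one, Nat.not_even_iff_odd] at h4
  exact h4

theorem used_two {k : ℕ} (hk : 2 ≤ k) (h : used k 2) : (k / 2) % 2 = 0 := by
  have h1 := used_one hk
  rw [used_succ (by omega)] at h1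
  have h2 : ¬ Odd (k.choose 2) := by
    intro h3
    exact h1 ⟨fun _ => h, fun _ => h3⟩
  rw [Nat.not_odd_iff_even, Nat.choose_two_right] at h2
  by_contra h3
  obtain ⟨c, hc⟩ : ∃ c, k = 4 * c + 2 ∨ k = 4 * c + 3 := ⟨k / 4, by omega⟩
  rcases hc with hc | hc
  · have e : k * (k - 1) / 2 = (2 * c + 1) * (4 * c + 1) := by
      rw [hc, show 4 * c + 2 - 1 = 4 * c + 1 by omega,
        show (4 * c + 2) * (4 * c + 1) = 2 * ((2 * c + 1) * (4 * c + 1)) by ring]
      exact Nat.mul_div_cancel_left _ (by norm_num)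
    rw [e] at h2
    have o : Odd ((2 * c + 1) * (4 * c + 1)) := Odd.mul ⟨c, rfl⟩ ⟨2 * c, by ring⟩
    exact (Nat.not_even_iff_odd.2 o) h2
  · have e : k * (k - 1) / 2 = (4 * c + 3) * (2 * c + 1) := by
      rw [hc, show 4 * c + 3 - 1 = 4 * c + 2 by omega,
        show (4 * c + 3) * (4 * c + 2) = 2 * ((4 * c + 3) * (2 * c + 1)) by ring]
      exact Nat.mul_div_cancel_left _ (by norm_num)
    rw [e] at h2
    have o : Odd ((4 * c + 3) * (2 * c + 1)) := Odd.mul ⟨2 * c + 1, by ring⟩ ⟨c, rfl⟩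
    exact (Nat.not_even_iff_odd.2 o) h2

/-- the classes of the node `a` -/
abbrev QB (k a : ℕ) : Type := Quotient (msSetoid (k - 2 * a) (one_dvd (2 * a + 1)))

theorem odd_QB {k a : ℕ} (h : 2 * a ≤ k) : Odd (Nat.card (QB k a)) ↔ Odd (k.choose (2 * a)) := by
  rw [Nat.odd_iff, card_classes_mod_two ⟨a, rfl⟩, card_Ms, ← Nat.odd_iff,
    show 2 * a + 1 + (k - 2 * a) - 1 = k by omega, Nat.choose_symm h]

/-! ### The prescribed classes -/

/-- `m - t` beads in the first hole, `t` beads in the second -/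
def cm (a m t : ℕ) : Ms (2 * a + 1) m :=
  ⟨fun x => (if x = 0 then m - min t m else 0) + (if x = 1 then min t m else 0), by
    rw [sum_add_distrib, sum_ite_eq' univ (0 : ZMod (2 * a + 1)) (fun _ => m - min t m),
      sum_ite_eq' univ (1 : ZMod (2 * a + 1)) (fun _ => min t m), if_pos (mem_univ _),
      if_pos (mem_univ _)]
    omega⟩

def clB (a m t : ℕ) : Quotient (msSetoid m (one_dvd (2 * a + 1))) := Quotient.mk _ (cm a m t)

theorem cl_zero (a m : ℕ) : clB a m 0 = Quotient.mk _ (pileMs m (0 : ZMod (2 * a + 1))) := by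
  unfold clB
  congr 1
  apply Subtype.ext
  funext x
  change (if x = 0 then m - min 0 m else 0) + (if x = 1 then min 0 m else 0) = if x = 0 then m else 0
  rw [Nat.zero_min, Nat.sub_zero]
  simp

theorem cl_one {a m : ℕ} (hm : 1 ≤ m) :
    clB a m 1 = Quotient.mk _ (nearMs hm (0 : ZMod (2 * a + 1)) (0 + 1)) := by
  unfold clB
  congr 1
  apply Subtype.ext
  funext x
  change (if x = 0 then m - min 1 m else 0) + (if x = 1 then min 1 m else 0) =
    (if x = 0 then m - 1 else 0) + (if x = 0 + 1 then 1 else 0)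
  rw [min_eq_left hm, zero_add]

/-- three or more beads -/
theorem node3 {a m : ℕ} (ha : 1 ≤ a) (hm : 3 ≤ m) (t : ℕ) (ht : t = 0 ∨ t = 1) (p q : Prop)
    (hpar : Odd (Nat.card (Quotient (msSetoid m (one_dvd (2 * a + 1))))) ↔ ¬ (p ↔ q)) :
    ∃ ι : Quotient (msSetoid m (one_dvd (2 * a + 1))) → Quotient (msSetoid m (one_dvd (2 * a + 1))),
      (∀ x, ι (ι x) = x) ∧ (∀ x, ι x = x ∨ HopQ (one_dvd _) x (ι x)) ∧
      ∀ x, ι x = x ↔ (p ∧ x = clB a m t) ∨ (q ∧ x = clB a m (1 - t)) := by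
  classical
  by_cases hp : p <;> by_cases hq : q
  · have hev : Even (Nat.card (Quotient (msSetoid m (one_dvd (2 * a + 1))))) := by
      rw [← Nat.not_odd_iff_even, hpar]
      tauto
    obtain ⟨ι, h1, h2, h3⟩ := near_py (n := 2 * a + 1) ⟨a, rfl⟩ (by omega) (one_dvd _) hm 0 (0 + 1)
      (Or.inl rfl) hev
    refine ⟨ι, h1, h2, fun x => ?_⟩
    rw [h3, ← cl_zero, ← cl_one]
    rcases ht with rfl | rfl
    · tauto
    · simp only [Nat.sub_self]
      tauto
  · have ho : Odd (Nat.card (Quotient (msSetoid m (one_dvd (2 * a + 1))))) := by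
      rw [hpar]; tauto
    obtain ⟨ι, h1, h2, h3⟩ := near_prescribed (n := 2 * a + 1) ⟨a, rfl⟩ (one_dvd _)
      (show 1 ≤ m by omega) (show m ≠ 2 by omega) (clB a m t)
    refine ⟨ι, h1, h2, fun x => ?_⟩
    rw [h3]
    tauto
  · have ho : Odd (Nat.card (Quotient (msSetoid m (one_dvd (2 * a + 1))))) := by
      rw [hpar]; tauto
    obtain ⟨ι, h1, h2, h3⟩ := near_prescribed (n := 2 * a + 1) ⟨a, rfl⟩ (one_dvd _)
      (show 1 ≤ m by omega) (show m ≠ 2 by omega) (clB a m (1 - t))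
    refine ⟨ι, h1, h2, fun x => ?_⟩
    rw [h3]
    tauto
  · have ho : ¬ Odd (Nat.card (Quotient (msSetoid m (one_dvd (2 * a + 1))))) := by
      rw [hpar]; tauto
    obtain ⟨ι, h1, h2, h3⟩ := near_prescribed (n := 2 * a + 1) ⟨a, rfl⟩ (one_dvd _)
      (show 1 ≤ m by omega) (show m ≠ 2 by omega) (clB a m t)
    refine ⟨ι, h1, h2, fun x => ?_⟩
    rw [h3]
    tauto

/-! ### Two beads -/

theorem cl_two_zero (a : ℕ) : clB a 2 0 = q2 a 0 := by
  unfold clB q2
  congr 1
  apply Subtype.ext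
  funext x
  change (if x = 0 then 2 - min 0 2 else 0) + (if x = 1 then min 0 2 else 0) = bd 0 x
  unfold bd
  rw [Nat.cast_zero]
  by_cases h : x = 0 <;> simp [h]

theorem cl_two_one (a : ℕ) : clB a 2 1 = q2 a 1 := by
  have h : cm a 2 1 = bdM a 1 := by
    apply Subtype.ext
    funext x
    change (if x = 0 then 2 - min 1 2 else 0) + (if x = 1 then min 1 2 else 0) = bd 1 x
    unfold bd
    rw [Nat.cast_one]
    norm_num
  unfold clB q2
  rw [h]

def pb (a i : ℕ) : ℕ :=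
  if i = 0 then 0 else if a % 2 = 0 then (if i % 2 = 1 then i + 1 else i - 1)
  else if i = 1 then 1 else if i % 2 = 0 then i + 1 else i - 1

theorem pb_val (a i : ℕ) : (i = 0 ∧ pb a i = 0) ∨ (a % 2 = 0 ∧ i % 2 = 1 ∧ pb a i = i + 1) ∨
    (a % 2 = 0 ∧ i ≠ 0 ∧ i % 2 = 0 ∧ pb a i = i - 1) ∨ (a % 2 = 1 ∧ i = 1 ∧ pb a i = 1) ∨
    (a % 2 = 1 ∧ 2 ≤ i ∧ i % 2 = 0 ∧ pb a i = i + 1) ∨
    (a % 2 = 1 ∧ 3 ≤ i ∧ i % 2 = 1 ∧ pb a i = i - 1) := by
  by_cases h0 : i = 0
  · left; exact ⟨h0, by unfold pb; rw [if_pos h0]⟩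
  right
  rcases Nat.mod_two_eq_zero_or_one a with ha | ha
  · rcases Nat.mod_two_eq_zero_or_one i with h | h
    · right; left
      exact ⟨ha, h0, h, by unfold pb; rw [if_neg h0, if_pos ha, if_neg (by omega)]⟩
    · left
      exact ⟨ha, h, by unfold pb; rw [if_neg h0, if_pos ha, if_pos h]⟩
  · right; right
    by_cases h1 : i = 1
    · left; exact ⟨ha, h1, by unfold pb; rw [if_neg h0, if_neg (by omega), if_pos h1]⟩
    right
    rcases Nat.mod_two_eq_zero_or_one i with h | h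
    · left
      exact ⟨ha, by omega, h, by unfold pb; rw [if_neg h0, if_neg (by omega), if_neg h1, if_pos h]⟩
    · right
      exact ⟨ha, by omega, h, by unfold pb; rw [if_neg h0, if_neg (by omega), if_neg h1, if_neg (by omega)]⟩

theorem pb_all {a i : ℕ} (hi : i ≤ a) : pb a i ≤ a ∧ pb a (pb a i) = i ∧
    (pb a i = i ∨ pb a i = i + 1 ∨ i = pb a i + 1) := by
  have h1 := pb_val a i
  have h2 := pb_val a (pb a i)
  generalize pb a (pb a i) = y at h2 ⊢
  generalize pb a i = x at h1 h2 ⊢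
  rcases h1 with h1 | h1 | h1 | h1 | h1 | h1 <;>
    rcases h2 with h2 | h2 | h2 | h2 | h2 | h2 <;>
    first
      | (exfalso; omega)
      | (refine ⟨by omega, by omega, ?_⟩
         first
           | (left; omega)
           | (right; left; omega)
           | (right; right; omega))

theorem pb_fix {a i : ℕ} : pb a i = i ↔ i = 0 ∨ (a % 2 = 1 ∧ i = 1) := by
  have h1 := pb_val a i
  rcases h1 with h1 | h1 | h1 | h1 | h1 | h1 <;> constructor <;> intro h <;> omega

theorem odd_card2 (a : ℕ) : Odd (Nat.card (Quotient (msSetoid 2 (one_dvd (2 * a + 1))))) ↔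
    a % 2 = 0 := by
  have h2 := Nat.add_one_mul_choose_eq (2 * a + 1) 1
  rw [Nat.choose_one_right] at h2
  have h3 : (2 * a + 1 + 1).choose (1 + 1) = (a + 1) * (2 * a + 1) := by
    apply Nat.eq_of_mul_eq_mul_right (show 0 < 1 + 1 by norm_num)
    rw [← h2]
    ring
  rw [Nat.odd_iff, card_classes_mod_two ⟨a, rfl⟩, card_Ms, ← Nat.odd_iff,
    show 2 * a + 1 + 2 - 1 = 2 * a + 1 + 1 by omega]
  have h4 : Odd ((2 * a + 1 + 1).choose 2) ↔ Odd ((a + 1) * (2 * a + 1)) := by
    rw [← h3]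
  rw [h4, Nat.odd_mul]
  have o : Odd (2 * a + 1) := ⟨a, rfl⟩
  rw [Nat.odd_iff]
  constructor
  · rintro ⟨h, -⟩; omega
  · intro h; exact ⟨by omega, o⟩

theorem node2 {a : ℕ} (ha : 1 ≤ a) (p q : Prop) (hq : q)
    (hpar : Odd (Nat.card (Quotient (msSetoid 2 (one_dvd (2 * a + 1))))) ↔ ¬ (p ↔ q)) :
    ∃ ι : Quotient (msSetoid 2 (one_dvd (2 * a + 1))) → Quotient (msSetoid 2 (one_dvd (2 * a + 1))),
      (∀ x, ι (ι x) = x) ∧ (∀ x, ι x = x ∨ HopQ (one_dvd _) x (ι x)) ∧
      ∀ x, ι x = x ↔ (p ∧ x = clB a 2 1) ∨ (q ∧ x = clB a 2 0) := by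
  obtain ⟨ι, h1, h2, h3⟩ := q2_match (j := a) (pb a) (fun i hi => (pb_all hi).1)
    (fun i hi => (pb_all hi).2.1) (fun i hi => (pb_all hi).2.2)
  refine ⟨ι, h1, h2, fun x => ?_⟩
  obtain ⟨i, hi, rfl⟩ := q2_surj x
  rw [h3 i hi, cl_two_zero, cl_two_one]
  have e1 : ∀ i', i' ≤ a → (q2 a i = q2 a i' ↔ i = i') := fun i' hi' =>
    ⟨fun h => q2_inj hi hi' h, fun h => by rw [h]⟩
  have e2 : q2 a (pb a i) = q2 a i ↔ pb a i = i :=
    ⟨fun h => q2_inj (pb_all hi).1 hi h, fun h => by rw [h]⟩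
  rw [e2, pb_fix, e1 1 ha, e1 0 (by omega)]
  rw [odd_card2] at hpar
  have hpp : p ↔ a % 2 = 1 := by
    constructor
    · intro h
      by_contra h'
      exact (hpar.1 (by omega)) ⟨fun _ => hq, fun _ => h⟩
    · intro h
      by_contra h'
      have := hpar.2 (fun h'' => h' (h''.2 hq))
      omega
  rw [hpp]
  tauto

/-! ### At most one bead: one class -/

theorem one_class {a m : ℕ} (hm : m ≤ 1) (x y : Quotient (msSetoid m (one_dvd (2 * a + 1)))) :
    x = y := by
  obtain ⟨x, rfl⟩ := Quotient.exists_rep x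
  obtain ⟨y, rfl⟩ := Quotient.exists_rep y
  rcases (by omega : m = 0 ∨ m = 1) with rfl | rfl
  · congr 1
    apply Subtype.ext
    funext z
    have h1 := Finset.sum_eq_zero_iff.1 x.2 z (mem_univ z)
    have h2 := Finset.sum_eq_zero_iff.1 y.2 z (mem_univ z)
    rw [h1, h2]
  · obtain ⟨s, hs⟩ := one_bead x.1 x.2
    obtain ⟨t, ht⟩ := one_bead y.1 y.2
    apply Quotient.sound
    refine ⟨t - s, Subsingleton.elim _ _, fun z => ?_⟩
    rw [hs, ht]
    have : z + (t - s) = t ↔ z = s := by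
      constructor
      · intro h; linear_combination h
      · rintro rfl; ring
    simp only [this]

/-- **THE NODES `a ≥ 2`** -/
theorem node_ex {k a : ℕ} (ha : 2 ≤ a) (hak : a ≤ k / 2) :
    ∃ ι : QB k a → QB k a, (∀ x, ι (ι x) = x) ∧ (∀ x, ι x = x ∨ HopQ (one_dvd _) x (ι x)) ∧
      ∀ x, ι x = x ↔ (used k a ∧ x = clB a (k - 2 * a) ((k / 2 - a) % 2)) ∨
        (used k (a + 1) ∧ x = clB a (k - 2 * a) (1 - (k / 2 - a) % 2)) := by
  have hpar : Odd (Nat.card (QB k a)) ↔ ¬ (used k a ↔ used k (a + 1)) := by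
    rw [odd_QB (by omega)]
    have := used_succ hak
    tauto
  rcases (by omega : a = k / 2 ∨ (a + 1 = k / 2 ∧ k % 2 = 0) ∨ 3 ≤ k - 2 * a) with h | ⟨h, h'⟩ | h
  · refine ⟨id, fun _ => rfl, fun _ => Or.inl rfl, fun x => ⟨fun _ => Or.inl ⟨?_, ?_⟩, fun _ => rfl⟩⟩
    · rw [h]; exact used_last
    · exact one_class (by omega) _ _
  · have e : k - 2 * a = 2 := by omega
    have e2 : (k / 2 - a) % 2 = 1 := by omega
    have hq : used k (a + 1) := by rw [h]; exact used_last
    unfold QB at hpar ⊢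
    rw [e2]
    revert hpar
    rw [e]
    intro hpar
    exact node2 (by omega) _ _ hq hpar
  · exact node3 (by omega) h _ (by omega) _ _ hpar

end Pool.OddHC
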