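import Pool.Agent.Work.MP_8f87b2_top.TopId
import Pool.Agent.Work.MP_8f87b2_und.Eng
import Pool.Agent.Work.MP_8f87b2_end.Sys

/-!
MP_8f87b2_co: the system of the hop triples `{(Y), Y(), ()Y}`, `Y = C(u, f)`, over a T-fixed word `u`, for a
(possibly incomplete) matching of the classes of `m` beads by hops; and the system of one plain triple.
-/

set_option autoImplicit false

namespace Pool.OddHC

open Finset BinaryTree Pool.OddHop

/-- the plain triple as a gadget with two new cycles -/
theorem tri_eq {k : ℕ} {a b c : X k} {p q : Cyc k} (hb : cyc b = p) (hc : cyc c = q) :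
    pDG {a, b, c} p q ∅ = triDG a b c := by
  unfold pDG triDG
  congr 1
  ext w
  change (cyc w = p ∨ cyc w = q) ↔ _
  rw [← hb, ← hc]
  constructor
  · rintro (h | h)
    · exact Or.inl (cyc_eq.1 h.symm)
    · exact Or.inr (cyc_eq.1 h.symm)
  · rintro (h | h)
    · exact Or.inl (cyc_eq.2 h).symm
    · exact Or.inr (cyc_eq.2 h).symm

/-- the plain triple absorbs two new cycles -/
theorem tri_absG {k : ℕ} {P Q R : BinaryTree Unit}
    (hs : P.numNodes + Q.numNodes + R.numNodes + 1 = k) {a b c : X k} (ha : a.1 = w1 P Q R)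
    (hb : b.1 = w1 Q R P) (hc : c.1 = w1 R P Q) (hab : cyc a ≠ cyc b) (hac : cyc a ≠ cyc c)
    (hbc : cyc b ≠ cyc c) : (triDG a b c).Abs := by
  refine triDG_abs (fun h => hab (cyc_eq.2 h)) (fun h => hac (cyc_eq.2 h))
    (fun h => hbc (cyc_eq.2 h)) ?_
  exact triple_legal (P := P) (Q := Q) (R := R) hs (by omega) (by omega)
    (Subtype.ext ha) (Subtype.ext hb) (Subtype.ext hc)
    (fun h => hab (by rw [h])) (fun h => hac (by rw [h])) (fun h => hbc (by rw [h]))

/-- ONE PLAIN TRIPLE: the new cycles are two of the three; `T` names the triple in any order -/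
theorem sys_tri {k : ℕ} (O : Set (Cyc k)) {a b c : X k} (h : (triDG a b c).Abs)
    (hab : cyc a ≠ cyc b) (hac : cyc a ≠ cyc c) (hO : cyc a ∈ O) :
    HasSys O {cyc b, cyc c} {a, b, c} ∅ := by
  refine ⟨Unit, inferInstance, fun _ => triDG a b c, fun _ => {cyc b, cyc c}, fun _ => 0, ?_⟩
  constructor
  · intro _ w
    change (TT.SameCycle b w ∨ TT.SameCycle c w) ↔ _
    rw [Set.mem_insert_iff, Set.mem_singleton_iff, cyc_eq, cyc_eq]
    constructor
    · rintro (h | h)
      · exact Or.inl h.symm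
      · exact Or.inr h.symm
    · rintro (h | h)
      · exact Or.inl h.symm
      · exact Or.inr h.symm
  · intro _ c h; exact h
  · intro c h; exact ⟨(), h⟩
  · intro g h hne; exact absurd rfl hne
  · intro g h hne; exact absurd rfl hne
  · rintro _ x (rfl | h)
    · exact ⟨b, by change b ∈ ({a, b, c} : Finset (X k)); simp, rfl⟩
    · rw [Set.mem_singleton_iff] at h
      exact ⟨c, by change c ∈ ({a, b, c} : Finset (X k)); simp, h.symm⟩
  · intro _
    refine ⟨a, by change a ∈ ({a, b, c} : Finset (X k)); simp, ?_⟩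
    rintro (h | h)
    · exact hab h
    · exact hac h
  · intro _ w hw
    change w ∈ ({a, b, c} : Finset (X k)) at hw
    simp only [mem_insert, mem_singleton] at hw
    rcases hw with rfl | rfl | rfl
    · exact Or.inr (Or.inl hO)
    · exact Or.inl (Or.inl rfl)
    · exact Or.inl (Or.inr rfl)
  · intro _ w hw
    change w ∈ ({a, b, c} : Finset (X k)) at hw
    simp only [mem_insert, mem_singleton] at hw
    exact hw
  · intro _ x hx
    exact absurd hx (Set.notMem_empty _)
  · intro _; exact h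

/-! ### Classes over a T-fixed word -/

variable {j k m : ℕ}

/-- the word `C(u, x)` -/
def fw (u : X j) (hk : j + pkn u.1 + m = k) (x : Ms (2 * j + 1) m) : X k :=
  phi u x.1 (by rw [x.2]; exact hk)

theorem fw_same (hj : 1 ≤ j) (u : X j) (hu : TT u = u) (hk : j + pkn u.1 + m = k)
    (x y : Ms (2 * j + 1) m) : cyc (fw u hk x) = cyc (fw u hk y) ↔
      (Quotient.mk (msSetoid m (one_dvd (2 * j + 1))) x) = Quotient.mk _ y := by
  rw [cyc_eq]
  unfold fw
  rw [same_fix hj _ hu]
  constructor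
  · rintro ⟨t, ht⟩
    apply Quotient.sound
    refine ⟨-t, ?_, fun z => ?_⟩
    · exact Subsingleton.elim _ _
    · rw [ht]
      simp only
      rw [neg_add_cancel_right]
  · intro h
    obtain ⟨t, -, h1⟩ := Quotient.exact h
    refine ⟨-t, funext fun z => ?_⟩
    rw [← h1 (z + -t), neg_add_cancel_right]

/-- the T-cycle of a class -/
noncomputable def fc (hj : 1 ≤ j) (u : X j) (hu : TT u = u) (hk : j + pkn u.1 + m = k)
    (q : Quotient (msSetoid m (one_dvd (2 * j + 1)))) : Cyc k :=
  Quotient.lift (fun x => cyc (fw u hk x))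
    (fun x y h => (fw_same hj u hu hk x y).2 (Quotient.sound h)) q

theorem fc_mk (hj : 1 ≤ j) (u : X j) (hu : TT u = u) (hk : j + pkn u.1 + m = k)
    (x : Ms (2 * j + 1) m) : fc hj u hu hk (Quotient.mk _ x) = cyc (fw u hk x) := rfl

theorem fc_inj (hj : 1 ≤ j) (u : X j) (hu : TT u = u) (hk : j + pkn u.1 + m = k) :
    Function.Injective (fc hj u hu hk) := by
  intro p q h
  obtain ⟨x, rfl⟩ := Quotient.exists_rep p
  obtain ⟨y, rfl⟩ := Quotient.exists_rep q
  exact (fw_same hj u hu hk x y).1 h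

/-- common part `f` plus one bead -/
def addB (f : ZMod (2 * j + 1) → ℕ) (hf : ∑ z, f z + 1 = m) (t : ZMod (2 * j + 1)) :
    Ms (2 * j + 1) m :=
  ⟨fun z => f z + if z = t then 1 else 0, by
    rw [sum_add_distrib, sum_ite_eq' univ t (fun _ => 1), if_pos (mem_univ _)]; exact hf⟩

/-- the class of `f` plus one bead in the hole `t` -/
def qB (f : ZMod (2 * j + 1) → ℕ) (hf : ∑ z, f z + 1 = m) (t : ZMod (2 * j + 1)) :
    Quotient (msSetoid m (one_dvd (2 * j + 1))) := Quotient.mk _ (addB f hf t)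

/-- every hop is a hop over the star position -/
theorem hop_star (hj : 1 ≤ j) {q q' : Quotient (msSetoid m (one_dvd (2 * j + 1)))}
    (h : HopQ (one_dvd _) q q') : ∃ (f : ZMod (2 * j + 1) → ℕ) (hf : ∑ z, f z + 1 = m),
      (q = qB f hf (-1) ∧ q' = qB f hf 0) ∨ (q' = qB f hf (-1) ∧ q = qB f hf 0) := by
  obtain ⟨a, a', rfl, rfl, x, y, hxy, hz⟩ := h
  have hne : ∀ t : ZMod (2 * j + 1), t + 1 ≠ t := by
    intro t ht
    have h0 : (1 : ZMod (2 * j + 1)) = 0 := by simpa using ht
    have h1 := congrArg ZMod.val h0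
    have : Fact (1 < 2 * j + 1) := ⟨by omega⟩
    rw [ZMod.val_one, ZMod.val_zero] at h1
    omega
  have hxy' : x ≠ y := by
    rcases hxy with rfl | rfl
    · exact (hne x).symm
    · exact hne y
  let f : ZMod (2 * j + 1) → ℕ := fun z => a.1 z - if z = x then 1 else 0
  have ha : ∀ z, a.1 z = f z + if z = x then 1 else 0 := by
    intro z
    have := hz z
    simp only [f, eq_comm (a := z)]
    by_cases h1 : x = z
    · subst h1
      simp only [if_true, if_neg hxy'.symm] at this ⊢
      omega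
    · simp only [if_neg h1]
      omega
  have ha' : ∀ z, a'.1 z = f z + if z = y then 1 else 0 := by
    intro z
    have := hz z
    simp only [f, eq_comm (a := z)]
    by_cases h1 : x = z
    · subst h1
      simp only [if_true, if_neg hxy'.symm] at this ⊢
      omega
    · by_cases h2 : y = z
      · subst h2
        simp only [if_true, if_neg hxy'] at this ⊢
        omega
      · simp only [if_neg h1, if_neg h2] at this ⊢
        omega
  have hsum : ∑ z, f z + 1 = m := by
    have h1 := a.2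
    rw [sum_congr rfl (fun z _ => ha z), sum_add_distrib, sum_ite_eq' univ x (fun _ => 1),
      if_pos (mem_univ _)] at h1
    exact h1
  have key : ∀ (b : Ms (2 * j + 1) m) (s t : ZMod (2 * j + 1)),
      (∀ z, b.1 z = f z + if z = s then 1 else 0) →
      (Quotient.mk (msSetoid m (one_dvd (2 * j + 1))) b) =
        qB (fun z => f (z + t)) (by rw [sum_shift f t]; exact hsum) (s - t) := by
    intro b s t hb
    apply Quotient.sound
    refine ⟨-t, Subsingleton.elim _ _, fun z => ?_⟩
    rw [hb]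
    change f (z + -t + t) + (if z + -t = s - t then 1 else 0) = _
    have : z + -t = s - t ↔ z = s := by
      constructor
      · intro h; linear_combination h
      · rintro rfl; ring
    simp only [this, neg_add_cancel_right]
  rcases hxy with rfl | rfl
  · refine ⟨fun z => f (z + (x + 1)), by rw [sum_shift f (x + 1)]; exact hsum, Or.inl ⟨?_, ?_⟩⟩
    · have := key a x (x + 1) ha
      rwa [show x - (x + 1) = -1 by ring] at this
    · have := key a' (x + 1) (x + 1) ha'
      rwa [show x + 1 - (x + 1) = 0 by ring] at this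
  · refine ⟨fun z => f (z + (y + 1)), by rw [sum_shift f (y + 1)]; exact hsum, Or.inr ⟨?_, ?_⟩⟩
    · have := key a' y (y + 1) ha'
      rwa [show y - (y + 1) = -1 by ring] at this
    · have := key a (y + 1) (y + 1) ha
      rwa [show y + 1 - (y + 1) = 0 by ring] at this

/-! ### The words of the hop triple -/

/-- `Y = C(u, f)` -/
def yT (u : X j) (f : ZMod (2 * j + 1) → ℕ) : BinaryTree Unit := ins u.1 (lf f)

theorem yT_num (u : X j) (f : ZMod (2 * j + 1) → ℕ) :
    (yT u f).numNodes = j + pkn u.1 + ∑ z, f z := by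
  unfold yT
  rw [(ins_num _ _ (by rw [lf_length, X_num])).1, X_num, lf_sum]

theorem yT_inj {u : X j} {f f' : ZMod (2 * j + 1) → ℕ} (h : yT u f = yT u f') : f = f' := by
  unfold yT at h
  obtain ⟨-, h2⟩ := ins_inj (by rw [lf_length, X_num]) (by rw [lf_length, X_num]) h
  exact lf_inj h2

/-- `(Y)` -/
def wH (u : X j) (f : ZMod (2 * j + 1) → ℕ) (h : j + pkn u.1 + (∑ z, f z + 1) = k) : X k :=
  ⟨yT u f △ .nil, mem_treesOfNumNodesEq.2 (by
    change (yT u f).numNodes + 0 + 1 = k
    rw [yT_num]; omega)⟩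
/-- `Y()` -/
def wBb (u : X j) (f : ZMod (2 * j + 1) → ℕ) (h : j + pkn u.1 + (∑ z, f z + 1) = k) : X k :=
  ⟨app (yT u f) (.nil △ .nil), mem_treesOfNumNodesEq.2 (by
    rw [num_app, yT_num]
    change _ + (0 + 0 + 1) = k
    omega)⟩
/-- `()Y` -/
def wF (u : X j) (f : ZMod (2 * j + 1) → ℕ) (h : j + pkn u.1 + (∑ z, f z + 1) = k) : X k :=
  ⟨.nil △ yT u f, mem_treesOfNumNodesEq.2 (by
    change 0 + (yT u f).numNodes + 1 = k
    rw [yT_num]; omega)⟩

theorem wB_cyc (hj : 1 ≤ j) (u : X j) (hu : TT u = u) (hk : j + pkn u.1 + m = k)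
    (f : ZMod (2 * j + 1) → ℕ) (hf : ∑ z, f z + 1 = m) :
    cyc (wBb u f (by rw [hf]; exact hk)) = fc hj u hu hk (qB f hf (-1)) := by
  unfold qB
  rw [fc_mk]
  congr 1
  apply Subtype.ext
  exact (ins_back u f).symm

theorem wF_cyc (hj : 1 ≤ j) (u : X j) (hu : TT u = u) (hk : j + pkn u.1 + m = k)
    (f : ZMod (2 * j + 1) → ℕ) (hf : ∑ z, f z + 1 = m) :
    cyc (wF u f (by rw [hf]; exact hk)) = fc hj u hu hk (qB f hf 0) := by
  unfold qB
  rw [fc_mk]
  congr 1
  apply Subtype.ext
  exact (ins_front u f).symm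

theorem ht_yT (u : X j) (f : ZMod (2 * j + 1) → ℕ) (hj : 1 ≤ j) : ht (yT u f) = ht u.1 + 1 := by
  unfold yT
  apply ht_ins _ _ (by rw [lf_length, X_num])
  intro h
  have := X_num u
  rw [h] at this
  simp [BinaryTree.numNodes] at this
  omega

theorem ht_wH (u : X j) (f : ZMod (2 * j + 1) → ℕ) (h : j + pkn u.1 + (∑ z, f z + 1) = k)
    (hj : 1 ≤ j) : ht (wH u f h).1 = ht u.1 + 2 := by
  change max (ht (yT u f) + 1) 0 = _
  rw [ht_yT u f hj]
  omega

theorem ht_fw (u : X j) (hk : j + pkn u.1 + m = k) (x : Ms (2 * j + 1) m) (hj : 1 ≤ j) :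
    ht (fw u hk x).1 = ht u.1 + 1 := ht_yT u x.1 hj

/-- the height of a T-cycle -/
theorem ht_fc (hj : 1 ≤ j) (u : X j) (hu : TT u = u) (hk : j + pkn u.1 + m = k)
    (q : Quotient (msSetoid m (one_dvd (2 * j + 1)))) {w : X k} (h : cyc w = fc hj u hu hk q) :
    ht w.1 = ht u.1 + 1 := by
  obtain ⟨x, rfl⟩ := Quotient.exists_rep q
  rw [fc_mk] at h
  rw [ht_same (cyc_eq.1 h), ht_fw u hk x hj]

/-- the words of the hop triples of a matching `ι` -/
def EW (u : X j) (hk : j + pkn u.1 + m = k) (ι : Quotient (msSetoid m (one_dvd (2 * j + 1))) →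
    Quotient (msSetoid m (one_dvd (2 * j + 1)))) : Set (X k) :=
  {w | ∃ (f : ZMod (2 * j + 1) → ℕ) (hf : ∑ z, f z + 1 = m), ι (qB f hf 0) = qB f hf (-1) ∧
    ι (qB f hf (-1)) = qB f hf 0 ∧ qB f hf 0 ≠ qB f hf (-1) ∧
    (w = wH u f (by rw [hf]; exact hk) ∨ w = wBb u f (by rw [hf]; exact hk) ∨
      w = wF u f (by rw [hf]; exact hk))}

/-- **THE SYSTEM OF THE HOP TRIPLES over a T-fixed word.** -/
theorem sys_efix (hj : 1 ≤ j) (u : X j) (hu : TT u = u) (hk : j + pkn u.1 + m = k)
    (ι : Quotient (msSetoid m (one_dvd (2 * j + 1))) → Quotient (msSetoid m (one_dvd (2 * j + 1))))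
    (h1 : ∀ q, ι (ι q) = q) (h2 : ∀ q, ι q = q ∨ HopQ (one_dvd _) q (ι q)) (O : Set (Cyc k))
    (hO : ∀ (f : ZMod (2 * j + 1) → ℕ) (hf : ∑ z, f z + 1 = m),
      ι (qB f hf 0) = qB f hf (-1) → qB f hf 0 ≠ qB f hf (-1) →
      cyc (wH u f (by rw [hf]; exact hk)) ∈ O) :
    HasSys O {c | ∃ q, ι q ≠ q ∧ fc hj u hu hk q = c} (EW u hk ι) ∅ := by
  classical
  set N : Set (Cyc k) := {c | ∃ q, ι q ≠ q ∧ fc hj u hu hk q = c} with hN
  -- the class, the partner, the common part
  have hex : ∀ c : Cyc k, ∃ q, c ∈ N → ι q ≠ q ∧ fc hj u hu hk q = c := by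
    intro c
    by_cases hc : c ∈ N
    · obtain ⟨q, hq⟩ := hc
      exact ⟨q, fun _ => hq⟩
    · exact ⟨Quotient.mk _ ⟨fun z => if z = 0 then m else 0, by simp⟩, fun h => absurd h hc⟩
  choose cq hcq using hex
  have hpart : ∀ q, ι q ≠ q → ∃ (f : ZMod (2 * j + 1) → ℕ) (hf : ∑ z, f z + 1 = m),
      (q = qB f hf (-1) ∧ ι q = qB f hf 0) ∨ (ι q = qB f hf (-1) ∧ q = qB f hf 0) := by
    intro q hq
    exact hop_star hj ((h2 q).resolve_left hq)
  have hpart' : ∀ c : Cyc k, ∃ f : ZMod (2 * j + 1) → ℕ, c ∈ N → ∃ (hf : ∑ z, f z + 1 = m),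
      (cq c = qB f hf (-1) ∧ ι (cq c) = qB f hf 0) ∨ (ι (cq c) = qB f hf (-1) ∧ cq c = qB f hf 0) := by
    intro c
    by_cases hc : c ∈ N
    · obtain ⟨f, hf⟩ := hpart (cq c) (hcq c hc).1
      exact ⟨f, fun _ => hf⟩
    · exact ⟨fun _ => 0, fun h => absurd h hc⟩
  choose cf hcf using hpart'
  have hsum : ∀ c ∈ N, j + pkn u.1 + (∑ z, cf c z + 1) = k := by
    intro c hc
    obtain ⟨hf, -⟩ := hcf c hc
    rw [hf]
    exact hk
  let B : Cyc k → Finset (X k) := fun c => if hc : c ∈ N then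
    {wH u (cf c) (hsum c hc), wBb u (cf c) (hsum c hc), wF u (cf c) (hsum c hc)} else ∅
  have hB : ∀ c (hc : c ∈ N), B c = {wH u (cf c) (hsum c hc), wBb u (cf c) (hsum c hc),
      wF u (cf c) (hsum c hc)} := fun c hc => dif_pos hc
  have hBm : ∀ c (hc : c ∈ N) w, w ∈ B c ↔ w = wH u (cf c) (hsum c hc) ∨
      w = wBb u (cf c) (hsum c hc) ∨ w = wF u (cf c) (hsum c hc) := by
    intro c hc w
    rw [hB c hc]
    simp only [mem_insert, mem_singleton]
  let io : Cyc k → Cyc k := fun c => fc hj u hu hk (ι (cq c))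
  have hqN : ∀ q, ι q ≠ q → fc hj u hu hk q ∈ N := fun q hq => ⟨q, hq, rfl⟩
  have hcq' : ∀ q, ι q ≠ q → cq (fc hj u hu hk q) = q := by
    intro q hq
    exact fc_inj hj u hu hk (hcq _ (hqN q hq)).2
  have hio : ∀ c ∈ N, ι (ι (cq c)) ≠ ι (cq c) := by
    intro c hc h
    rw [h1] at h
    exact (hcq c hc).1 h.symm
  -- cycles of the words
  have hcyc : ∀ c (hc : c ∈ N), (cyc (wBb u (cf c) (hsum c hc)) = c ∧
      cyc (wF u (cf c) (hsum c hc)) = io c) ∨ (cyc (wBb u (cf c) (hsum c hc)) = io c ∧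
      cyc (wF u (cf c) (hsum c hc)) = c) := by
    intro c hc
    obtain ⟨hf, h | h⟩ := hcf c hc
    · left
      refine ⟨?_, ?_⟩
      · refine (wB_cyc hj u hu hk (cf c) hf).trans ?_
        rw [← h.1]
        exact (hcq c hc).2
      · refine (wF_cyc hj u hu hk (cf c) hf).trans ?_
        rw [← h.2]
    · right
      refine ⟨?_, ?_⟩
      · refine (wB_cyc hj u hu hk (cf c) hf).trans ?_
        rw [← h.1]
      · refine (wF_cyc hj u hu hk (cf c) hf).trans ?_
        rw [← h.2]
        exact (hcq c hc).2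
  have hne : ∀ c (_ : c ∈ N), io c ≠ c := by
    intro c hc h
    apply (hcq c hc).1
    apply fc_inj hj u hu hk
    rw [(hcq c hc).2]
    exact h
  have hht : ∀ c ∈ N, ∀ w : X k, cyc w = c → ht w.1 = ht u.1 + 1 := by
    intro c hc w hw
    exact ht_fc hj u hu hk (cq c) (hw.trans (hcq c hc).2.symm)
  have hioN : ∀ c ∈ N, io c ∈ N := fun c hc => hqN _ (hio c hc)
  have hHne : ∀ c (hc : c ∈ N), ∀ c' ∈ N, cyc (wH u (cf c) (hsum c hc)) ≠ c' := by
    intro c hc c' hc' h
    have e1 := hht c' hc' _ h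
    rw [ht_wH u _ _ hj] at e1
    omega
  refine sys_pairs O N (EW u hk ι) ∅ io ?_ hioN (fun _ => 0) (fun _ _ => rfl) B (fun _ => ∅)
    ?_ ?_ ?_ ?_ ?_ ?_ ?_ ?_
  · intro c hc
    change fc hj u hu hk (ι (cq (fc hj u hu hk (ι (cq c))))) = c
    rw [hcq' _ (hio c hc), h1]
    exact (hcq c hc).2
  · intro p hp q hq hqp hqi w hw hw'
    have key : ∀ c (hc : c ∈ N), w ∈ B c → w = wH u (cf c) (hsum c hc) ∨ cyc w = c ∨ cyc w = io c := by
      intro c hc h
      rcases (hBm c hc w).1 h with h | h | h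
      · exact Or.inl h
      · rcases hcyc c hc with h' | h'
        · exact Or.inr (Or.inl (by rw [h]; exact h'.1))
        · exact Or.inr (Or.inr (by rw [h]; exact h'.1))
      · rcases hcyc c hc with h' | h'
        · exact Or.inr (Or.inr (by rw [h]; exact h'.2))
        · exact Or.inr (Or.inl (by rw [h]; exact h'.2))
    have hiip : io (io p) = p := by
      change fc hj u hu hk (ι (cq (fc hj u hu hk (ι (cq p))))) = p
      rw [hcq' _ (hio p hp), h1]
      exact (hcq p hp).2
    have hiiq : io (io q) = q := by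
      change fc hj u hu hk (ι (cq (fc hj u hu hk (ι (cq q))))) = q
      rw [hcq' _ (hio q hq), h1]
      exact (hcq q hq).2
    rcases key p hp hw with h | h | h
    · rcases key q hq hw' with h' | h' | h'
      · -- the same common part
        have e := congrArg Subtype.val (h.symm.trans h')
        change yT u (cf p) △ .nil = yT u (cf q) △ .nil at e
        injection e with _ e _
        have e2 := yT_inj e
        have e3 : ∀ (h0 : j + pkn u.1 + (∑ z, cf p z + 1) = k) (h0' : j + pkn u.1 + (∑ z, cf q z + 1) = k),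
            wBb u (cf p) h0 = wBb u (cf q) h0' := by
          intro h0 h0'
          apply Subtype.ext
          change app (yT u (cf p)) _ = app (yT u (cf q)) _
          rw [e]
        have e4 := congrArg cyc (e3 (hsum p hp) (hsum q hq))
        rcases hcyc p hp with a | a <;> rcases hcyc q hq with b | b <;> rw [a.1, b.1] at e4
        · exact hqp e4.symm
        · exact hqi (by rw [e4, hiiq])
        · exact hqi e4.symm
        · exact hqp (by rw [← hiiq, ← e4, hiip])
      · exact hHne p hp q hq (by rw [← h]; exact h')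
      · exact hHne p hp _ (hioN q hq) (by rw [← h]; exact h')
    · rcases key q hq hw' with h' | h' | h'
      · exact hHne q hq p hp (by rw [← h']; exact h)
      · exact hqp (h'.symm.trans h)
      · exact hqi (by rw [← h, h', hiiq])
    · rcases key q hq hw' with h' | h' | h'
      · exact hHne q hq _ (hioN p hp) (by rw [← h']; exact h)
      · exact hqi (h'.symm.trans h)
      · exact hqp (by rw [← hiiq, ← h', h, hiip])
  · intro p hp
    rcases hcyc p hp with h | h
    · exact ⟨_, (hBm p hp _).2 (Or.inr (Or.inl rfl)), h.1⟩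
    · exact ⟨_, (hBm p hp _).2 (Or.inr (Or.inr rfl)), h.2⟩
  · intro p hp
    rcases hcyc p hp with h | h
    · exact ⟨_, (hBm p hp _).2 (Or.inr (Or.inr rfl)), h.2⟩
    · exact ⟨_, (hBm p hp _).2 (Or.inr (Or.inl rfl)), h.1⟩
  · intro p hp
    exact ⟨_, (hBm p hp _).2 (Or.inl rfl), hHne p hp p hp, hHne p hp _ (hioN p hp)⟩
  · intro p hp w hw
    rcases (hBm p hp w).1 hw with h | h | h
    · right; right; left
      rw [h]
      obtain ⟨hf, hh⟩ := hcf p hp
      have hn := (hcq p hp).1
      apply hO (cf p) hf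
      · rcases hh with hh | hh
        · rw [← hh.2, ← hh.1, h1]
        · rw [← hh.1, ← hh.2]
      · rcases hh with hh | hh
        · rw [← hh.2, ← hh.1]; exact hn
        · rw [← hh.1, ← hh.2]; exact hn.symm
    · rcases hcyc p hp with h' | h'
      · exact Or.inl (by rw [h]; exact h'.1)
      · exact Or.inr (Or.inl (by rw [h]; exact h'.1))
    · rcases hcyc p hp with h' | h'
      · exact Or.inr (Or.inl (by rw [h]; exact h'.2))
      · exact Or.inl (by rw [h]; exact h'.2)
  · intro p hp w hw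
    obtain ⟨hf, hh⟩ := hcf p hp
    have hn := (hcq p hp).1
    refine ⟨cf p, hf, ?_, ?_, ?_, (hBm p hp w).1 hw⟩
    · rcases hh with hh | hh
      · rw [← hh.2, ← hh.1, h1]
      · rw [← hh.1, ← hh.2]
    · rcases hh with hh | hh
      · rw [← hh.2, ← hh.1]
      · rw [← hh.1, ← hh.2, h1]
    · rcases hh with hh | hh
      · rw [← hh.2, ← hh.1]; exact hn
      · rw [← hh.1, ← hh.2]; exact hn.symm
  · intro p hp a ha
    exact absurd ha (Set.notMem_empty _)
  · intro p hp
    rw [hB p hp]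
    have n0 : (BinaryTree.nil : BinaryTree Unit).numNodes = 0 := rfl
    have hnum := yT_num u (cf p)
    have hs := hsum p hp
    have habs : cyc (wBb u (cf p) (hsum p hp)) ≠ cyc (wF u (cf p) (hsum p hp)) →
        (triDG (wH u (cf p) (hsum p hp)) (wBb u (cf p) (hsum p hp)) (wF u (cf p) (hsum p hp))).Abs := by
      intro hne'
      refine tri_absG (P := .nil) (Q := yT u (cf p)) (R := .nil) (by omega) rfl rfl rfl ?_ ?_ hne'
      · rcases hcyc p hp with h | h
        · rw [h.1]; exact hHne p hp p hp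
        · rw [h.1]; exact hHne p hp _ (hioN p hp)
      · rcases hcyc p hp with h | h
        · rw [h.2]; exact hHne p hp _ (hioN p hp)
        · rw [h.2]; exact hHne p hp p hp
    rcases hcyc p hp with h | h
    · rw [tri_eq h.1 h.2]
      apply habs
      rw [h.1, h.2]
      exact (hne p hp).symm
    · have e : pDG {wH u (cf p) (hsum p hp), wBb u (cf p) (hsum p hp), wF u (cf p) (hsum p hp)} p (io p) ∅ =
          pDG {wH u (cf p) (hsum p hp), wBb u (cf p) (hsum p hp), wF u (cf p) (hsum p hp)} (io p) p ∅ := by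
        unfold pDG
        congr 1
        ext w
        exact or_comm
      rw [e, tri_eq h.1 h.2]
      apply habs
      rw [h.1, h.2]
      exact hne p hp

end Pool.OddHC
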