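import Pool.Agent.Work.MP_8f87b2_bot.Bot2
import Pool.Agent.Work.MP_8f87b2_bot.EFix

/-!
MP_8f87b2_co, bottom: the words of the links as words with beads.
-/

set_option autoImplicit false

namespace Pool.OddHC

open Finset BinaryTree Pool.OddHop

/-- `(())` -/
def tw2 : BinaryTree Unit := (.nil △ .nil) △ .nil

theorem app_lv (n : ℕ) (t s : BinaryTree Unit) : app (lv n t) s = lv n (app t s) := by
  induction n with
  | zero => rfl
  | succ n ih => rw [lv, lv, app, ih]

/-- one more 2-peak at the end -/
theorem ins_uT_app : ∀ (b : ℕ) (e : List ℕ), e.length = 2 * b + 1 →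
    ins (uT (b + 1)) (e ++ [0, 0]) = app (ins (uT b) e) tw2 := by
  intro b
  induction b with
  | zero =>
    intro e he
    obtain ⟨x, rfl⟩ := List.length_eq_one_iff.1 he
    change lv x ((lv (0 + 1) .nil) △ lv 0 .nil) = app (lv x .nil) tw2
    rw [app_lv]
    rfl
  | succ b ih =>
    intro e he
    match e with
    | [] => simp at he
    | [x] => simp at he
    | x :: y :: e =>
      have he' : e.length = 2 * b + 1 := by
        simp only [List.length_cons] at he
        omega
      change lv x ((lv (y + 1) .nil) △ ins (uT (b + 1)) (e ++ [0, 0])) =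
        app (lv x ((lv (y + 1) .nil) △ ins (uT b) e)) tw2
      rw [ih e he', app_lv]
      rfl

theorem cast_eq_iff {n x y : ℕ} (hx : x < n) (hy : y < n) : ((x : ZMod n) = (y : ZMod n)) ↔ x = y := by
  constructor
  · intro hxy
    have := congrArg ZMod.val hxy
    rwa [ZMod.val_natCast_of_lt hx, ZMod.val_natCast_of_lt hy] at this
  · rintro rfl; rfl

theorem cm_val {a m t i : ℕ} (ha : 1 ≤ a) (hi : i < 2 * a + 1) :
    (cm a m t).1 (i : ZMod (2 * a + 1)) = (if i = 0 then m - min t m else 0) +
      (if i = 1 then min t m else 0) := by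
  change (if (i : ZMod (2 * a + 1)) = 0 then m - min t m else 0) +
    (if (i : ZMod (2 * a + 1)) = 1 then min t m else 0) = _
  have h0 : (i : ZMod (2 * a + 1)) = 0 ↔ i = 0 := by
    have := cast_eq_iff (n := 2 * a + 1) (x := i) (y := 0) hi (by omega)
    rwa [Nat.cast_zero] at this
  have h1 : (i : ZMod (2 * a + 1)) = 1 ↔ i = 1 := by
    have := cast_eq_iff (n := 2 * a + 1) (x := i) (y := 1) hi (by omega)
    rwa [Nat.cast_one] at this
  simp only [h0, h1]

theorem lf_cm (b m t : ℕ) (hb : 1 ≤ b) : lf (cm (b + 1) m t).1 = lf (cm b m t).1 ++ [0, 0] := by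
  have hr : List.range (2 * (b + 1) + 1) = List.range (2 * b + 1) ++ [2 * b + 1, 2 * b + 1 + 1] := by
    rw [show 2 * (b + 1) + 1 = (2 * b + 1) + 1 + 1 by ring, List.range_succ, List.range_succ,
      List.append_assoc]
    rfl
  unfold lf
  rw [hr, List.map_append]
  congr 1
  · apply List.map_congr_left
    intro i hi
    rw [List.mem_range] at hi
    have h1 := cm_val (a := b + 1) (m := m) (t := t) (i := i) (by omega) (by omega)
    have h2 := cm_val (a := b) (m := m) (t := t) (i := i) hb hi
    exact h1.trans h2.symm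
  · have h1 := cm_val (a := b + 1) (m := m) (t := t) (i := 2 * b + 1) (by omega) (by omega)
    have h2 := cm_val (a := b + 1) (m := m) (t := t) (i := 2 * b + 1 + 1) (by omega) (by omega)
    rw [if_neg (by omega), if_neg (by omega)] at h1 h2
    simp only [List.map_cons, List.map_nil]
    exact congrArg₂ (fun x y => [x, y]) h1 h2

/-- the common part `P` of the link `b + 1 -> b` -/
def lP (b m t : ℕ) : BinaryTree Unit := yT (uX b) (cm b m t).1

theorem lP_num (b m t : ℕ) : (lP b m t).numNodes = 2 * b + m := by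
  unfold lP
  rw [yT_num, (cm b m t).2]
  change b + pkn (uT b) + m = _
  rw [uT_pkn]
  ring

theorem lP_out (b m t : ℕ) (hb : 1 ≤ b) : app (lP b m t) tw2 = ins (uT (b + 1)) (lf (cm (b + 1) m t).1) := by
  rw [lf_cm b m t hb]
  exact (ins_uT_app b _ (lf_length _)).symm

theorem lP_in (b m t : ℕ) (ht : t ≤ m) : .nil △ (.nil △ lP b m t) = ins (uT b) (lf (cm b (m + 2) t).1) := by
  have h1 := ins_front (uX b) (cm b m t).1
  have h2 := ins_front (uX b) (fun x => (cm b m t).1 x + if x = 0 then 1 else 0)
  rw [h1] at h2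
  have e : (cm b (m + 2) t).1 = fun x => ((cm b m t).1 x + if x = 0 then 1 else 0) +
      if x = 0 then 1 else 0 := by
    funext x
    change (if x = 0 then m + 2 - min t (m + 2) else 0) + (if x = 1 then min t (m + 2) else 0) =
      ((if x = 0 then m - min t m else 0) + (if x = 1 then min t m else 0) + if x = 0 then 1 else 0) +
      if x = 0 then 1 else 0
    rw [min_eq_left ht, min_eq_left (show t ≤ m + 2 by omega)]
    by_cases h : x = 0
    · simp only [h, if_true]
      omega
    · simp only [h, if_false]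
      omega
  rw [e]
  exact h2.symm

/-- the cycle of a word with beads over `()^a` -/
theorem cyc_of {a m k : ℕ} (ha : 1 ≤ a) (hk : a + pkn (uX a).1 + m = k) (x : Ms (2 * a + 1) m)
    {w : X k} (hw : w.1 = ins (uT a) (lf x.1)) :
    cyc w = fc ha (uX a) (T_uX a) hk (Quotient.mk _ x) := by
  rw [fc_mk]
  congr 1
  exact Subtype.ext hw

theorem pile_rot {a m : ℕ} (s : ZMod (2 * a + 1)) :
    (Quotient.mk (msSetoid m (one_dvd (2 * a + 1))) (pileMs m s)) = Quotient.mk _ (pileMs m 0) := by
  apply Quotient.sound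
  refine ⟨-s, Subsingleton.elim _ _, fun z => ?_⟩
  change (if z + -s = 0 then m else 0) = if z = s then m else 0
  have : z + -s = 0 ↔ z = s := by
    constructor
    · intro h; linear_combination h
    · rintro rfl; ring
  simp only [this]

theorem near_rot {a m : ℕ} (hm : 1 ≤ m) (s x y : ZMod (2 * a + 1)) :
    (Quotient.mk (msSetoid m (one_dvd (2 * a + 1))) (nearMs hm (x + s) (y + s))) =
      Quotient.mk _ (nearMs hm x y) := by
  apply Quotient.sound
  refine ⟨-s, Subsingleton.elim _ _, fun z => ?_⟩
  change (if z + -s = x then m - 1 else 0) + (if z + -s = y then 1 else 0) =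
    (if z = x + s then m - 1 else 0) + (if z = y + s then 1 else 0)
  have h1 : ∀ x, z + -s = x ↔ z = x + s := by
    intro x
    constructor
    · intro h; linear_combination h
    · rintro rfl; ring
  simp only [h1]

/-! ### The first node -/

theorem node1_far {m : ℕ} (hm : 4 ≤ m)
    (hodd : Odd (Nat.card (Quotient (msSetoid m (one_dvd (2 * 1 + 1)))))) :
    ∃ ι : Quotient (msSetoid m (one_dvd (2 * 1 + 1))) → Quotient (msSetoid m (one_dvd (2 * 1 + 1))),
      (∀ x, ι (ι x) = x) ∧ (∀ x, ι x = x ∨ HopQ (one_dvd _) x (ι x)) ∧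
      (∀ x, ι x = x ↔ x = Quotient.mk _ (pileMs m 0)) ∧
      ι (Quotient.mk _ (nearMs (by omega) 0 (0 + 1))) ≠ Quotient.mk _ (nearMs (by omega) 0 (0 - 1)) := by
  have hn : Odd (2 * 1 + 1) := ⟨1, rfl⟩
  have hg : 1 ∣ 2 * 1 + 1 := one_dvd _
  have hfin : Finite (Quotient (msSetoid m hg)) := Quotient.finite _
  obtain ⟨f, hf, hone⟩ := hasCycle (m := m) hn hg (by omega) (by omega)
  have hbet := pile_between hg hn (by omega) (show 3 ≤ m by omega) 0 f hf hone
  have hp1 := pile_ne_near (m := m) hg (by omega) 0 (0 + 1) (by decide)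
  have hp2 := pile_ne_near (m := m) hg (by omega) 0 (0 - 1) (by decide)
  have h12 := near_ne_near (m := m) hg hn (by omega) (by omega) 0
  obtain ⟨c, hc⟩ := hodd
  obtain ⟨ι, k1, k2, k3⟩ := arc_matching f hone (Quotient.mk (msSetoid m hg) (pileMs m 0)) 1
    (by omega) ⟨c, by omega⟩
  have k3' : ∀ x, ι x = x ↔ x = Quotient.mk (msSetoid m hg) (pileMs m 0) := by
    intro x
    rw [k3]
    constructor
    · rintro ⟨i, hi, rfl⟩
      have : i = 0 := by omega
      subst this
      rfl
    · rintro rfl
      exact ⟨0, by norm_num, rfl⟩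
  refine ⟨ι, k1, ?_, k3', ?_⟩
  · intro q
    rcases k2 q with h | h | h
    · exact Or.inl h
    · right; rw [h]; exact hf q
    · right
      have h1 := hf (ι q)
      rw [h] at h1
      exact h1.symm3
  · intro hi
    simp only at hbet
    revert hbet k2 hi hp1 hp2 h12
    generalize hp : (Quotient.mk (msSetoid m hg) (pileMs m 0)) = p
    generalize hy1 : (Quotient.mk (msSetoid m hg) (nearMs (by omega) 0 (0 + 1))) = y1
    generalize hy2 : (Quotient.mk (msSetoid m hg) (nearMs (by omega) 0 (0 - 1))) = y2
    intro hbet hp1 hp2 h12 k2 hi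
    -- a fourth class
    obtain ⟨dM, hdM⟩ : ∃ dM : Ms (2 * 1 + 1) m, dM.1 0 = m - 2 :=
      ⟨⟨fun x => (if x = 0 then m - 2 else 0) + (if x = 1 then 2 else 0), by
        rw [sum_add_distrib, sum_ite_eq' univ (0 : ZMod (2 * 1 + 1)) (fun _ => m - 2),
          sum_ite_eq' univ (1 : ZMod (2 * 1 + 1)) (fun _ => 2), if_pos (mem_univ _),
          if_pos (mem_univ _)]
        omega⟩, by
        change (if (0 : ZMod (2 * 1 + 1)) = 0 then m - 2 else 0) + (if (0 : ZMod (2 * 1 + 1)) = 1 then 2 else 0) = _
        rw [if_pos rfl, if_neg (by decide)]; rfl⟩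
    have hd1 : ∀ b : Ms (2 * 1 + 1) m, (∀ z, b.1 z ≠ m - 2) →
        Quotient.mk (msSetoid m hg) dM ≠ Quotient.mk (msSetoid m hg) b := by
      intro b hb he
      obtain ⟨t, -, h1⟩ := Quotient.exact he
      apply hb (0 + t)
      rw [← hdM]
      exact h1 0
    have hdp : Quotient.mk (msSetoid m hg) dM ≠ p := by
      rw [← hp]
      apply hd1
      intro z
      change (if z = 0 then m else 0) ≠ m - 2
      split_ifs <;> omega
    have hdn : ∀ y, ∀ h : 1 ≤ m, y ≠ 0 →
        Quotient.mk (msSetoid m hg) dM ≠ Quotient.mk (msSetoid m hg) (nearMs h 0 y) := by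
      intro y h hy
      apply hd1
      intro z
      change (if z = 0 then m - 1 else 0) + (if z = y then 1 else 0) ≠ m - 2
      by_cases hz : z = 0
      · rw [if_pos hz, if_neg (by rw [hz]; exact Ne.symm hy)]
        omega
      · rw [if_neg hz]
        split_ifs <;> omega
    have hdy1 : Quotient.mk (msSetoid m hg) dM ≠ y1 := by
      rw [← hy1]
      exact hdn _ _ (by decide)
    have hdy2 : Quotient.mk (msSetoid m hg) dM ≠ y2 := by
      rw [← hy2]
      exact hdn _ _ (by decide)
    have hclosed : (∀ x, x = p ∨ x = y1 ∨ x = y2 → f x = p ∨ f x = y1 ∨ f x = y2) → False := by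
      intro hcl
      obtain ⟨i, hi'⟩ := Equiv.Perm.SameCycle.exists_pow_eq' (hone p (Quotient.mk (msSetoid m hg) dM))
      have hall : ∀ n : ℕ, (f ^ n) p = p ∨ (f ^ n) p = y1 ∨ (f ^ n) p = y2 := by
        intro n
        induction n with
        | zero => exact Or.inl rfl
        | succ n ih => rw [pow_succ', Equiv.Perm.mul_apply]; exact hcl _ ih
      have := hall i
      rw [hi'.2] at this
      rcases this with h | h | h
      · exact hdp h
      · exact hdy1 h
      · exact hdy2 h
    rcases hbet with ⟨a1, a2⟩ | ⟨a1, a2⟩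
    · rcases k2 y1 with h | h | h
      · exact h12 (h.symm.trans hi)
      · rw [hi] at h
        apply hclosed
        rintro x (rfl | rfl | rfl)
        · exact Or.inr (Or.inl a1)
        · exact Or.inr (Or.inr h.symm)
        · exact Or.inl a2
      · rw [hi, a2] at h
        exact hp1 h
    · rcases k2 y1 with h | h | h
      · exact h12 (h.symm.trans hi)
      · rw [hi, a2] at h
        exact hp2 h.symm
      · rw [hi] at h
        apply hclosed
        rintro x (rfl | rfl | rfl)
        · exact Or.inr (Or.inr a1)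
        · exact Or.inl a2
        · exact Or.inr (Or.inl h)

end Pool.OddHC
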