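import Pool.Agent.Work.MP_8f87b2_bot.Bot3

/-!
MP_8f87b2_co, bottom: the systems of the links.
-/

set_option autoImplicit false

namespace Pool.OddHC

open Finset BinaryTree Pool.OddHop

variable {k : ℕ}

/-- a finite sequence of independent systems over the same old cycles -/
theorem sys_range (O : Set (Cyc k)) (N : ℕ → Set (Cyc k)) (W : ℕ → Set (X k)) : ∀ n : ℕ,
    (∀ i < n, HasSys O (N i) (W i) ∅) →
    (∀ i < n, ∀ j < i, ∀ c ∈ N j, c ∉ N i) → (∀ i < n, ∀ j < i, ∀ w ∈ W j, w ∉ W i) →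
    HasSys O {c | ∃ i < n, c ∈ N i} {w | ∃ i < n, w ∈ W i} ∅ := by
  intro n
  induction n with
  | zero =>
    intro _ _ _
    have e : {c : Cyc k | ∃ i < 0, c ∈ N i} = ∅ := by
      ext c
      constructor
      · rintro ⟨i, hi, -⟩
        omega
      · intro h
        exact absurd h (Set.notMem_empty _)
    rw [e]
    exact sys_empty _ _ _
  | succ n ih =>
    intro h1 h2 h3
    have h := ih (fun i hi => h1 i (by omega)) (fun i hi => h2 i (by omega))
      (fun i hi => h3 i (by omega))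
    have h' := sys_union h ((h1 n (by omega)).mono_old (O' := O ∪ {c | ∃ i < n, c ∈ N i})
      (fun c hc => Or.inl hc)) (by
        rintro c ⟨i, hi, hc⟩
        exact h2 n (by omega) i hi c hc) (by
        rintro w ⟨i, hi, hw⟩
        exact h3 n (by omega) i hi w hw) (fun w _ => Set.notMem_empty w)
    have e : {c : Cyc k | ∃ i < n, c ∈ N i} ∪ N n = {c | ∃ i < n + 1, c ∈ N i} := by
      ext c
      constructor
      · rintro (⟨i, hi, hc⟩ | hc)
        · exact ⟨i, by omega, hc⟩
        · exact ⟨n, by omega, hc⟩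
      · rintro ⟨i, hi, hc⟩
        rcases (by omega : i < n ∨ i = n) with h | h
        · exact Or.inl ⟨i, h, hc⟩
        · subst h
          exact Or.inr hc
    rw [e] at h'
    refine h'.mono ?_ (by rintro w (h | h) <;> exact h)
    rintro w (⟨i, hi, hw⟩ | hw)
    · exact ⟨i, by omega, hw⟩
    · exact ⟨n, by omega, hw⟩

/-- one plain triple in symmetric form -/
theorem sys_tri' (Old : Set (Cyc k)) {P Q R : BinaryTree Unit}
    (hs : P.numNodes + Q.numNodes + R.numNodes + 1 = k) {a b c : X k} (ha : a.1 = w1 P Q R)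
    (hb : b.1 = w1 Q R P) (hc : c.1 = w1 R P Q) (hab : cyc a ≠ cyc b) (hac : cyc a ≠ cyc c)
    (hbc : cyc b ≠ cyc c) (hO : cyc a ∈ Old) :
    HasSys Old {x | x = cyc b ∨ x = cyc c} {w | w = a ∨ w = b ∨ w = c} ∅ := by
  have h := sys_tri Old (tri_absG hs ha hb hc hab hac hbc) hab hac hO
  have e : ({cyc b, cyc c} : Set (Cyc k)) = {x | x = cyc b ∨ x = cyc c} := by
    ext x
    simp only [Set.mem_insert_iff, Set.mem_singleton_iff, Set.mem_ofPred_eq]
  rw [e] at h
  refine h.mono ?_ (fun _ hx => hx)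
  intro w hw
  simp only [Set.mem_insert_iff, Set.mem_singleton_iff] at hw
  exact hw

/-! ### The cycles of the nodes -/

theorem hkb {a : ℕ} (h : a ≤ k / 2) : a + pkn (uX a).1 + (k - 2 * a) = k := by
  change a + pkn (uT a) + _ = k
  rw [uT_pkn]
  omega

/-- the cycle of a class of the node `a` -/
noncomputable def ncB {a : ℕ} (ha : 1 ≤ a) (h : a ≤ k / 2) (q : QB k a) : Cyc k :=
  fc ha (uX a) (T_uX a) (hkb h) q

theorem ncB_inj {a : ℕ} (ha : 1 ≤ a) (h : a ≤ k / 2) {q q' : QB k a} (he : ncB ha h q = ncB ha h q') :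
    q = q' := fc_inj _ _ _ _ he

theorem pkc_fc {a m : ℕ} (ha : 1 ≤ a) (hk : a + pkn (uX a).1 + m = k)
    (q : Quotient (msSetoid m (one_dvd (2 * a + 1)))) :
    pkc (fc ha (uX a) (T_uX a) hk q) = a + m := by
  obtain ⟨x, rfl⟩ := Quotient.exists_rep q
  change pkc (cyc (fw (uX a) hk x)) = _
  rw [pkc_cyc]
  unfold fw
  rw [pkn_phi, x.2]
  change pkn (uT a) + m = _
  rw [uT_pkn]

theorem htc_fc {a m : ℕ} (ha : 1 ≤ a) (hk : a + pkn (uX a).1 + m = k)
    (q : Quotient (msSetoid m (one_dvd (2 * a + 1)))) :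
    htc (fc ha (uX a) (T_uX a) hk q) = 2 := by
  obtain ⟨x, rfl⟩ := Quotient.exists_rep q
  change htc (cyc (fw (uX a) hk x)) = _
  rw [htc_cyc, ht_fw _ _ _ ha]
  change ht (uT a) + 1 = 2
  rw [ht_uT' a ha]

theorem ncB_pk {a : ℕ} (ha : 1 ≤ a) (h : a ≤ k / 2) (q : QB k a) : pkc (ncB ha h q) = k - a := by
  unfold ncB
  rw [pkc_fc]
  omega

theorem ncB_ht {a : ℕ} (ha : 1 ≤ a) (h : a ≤ k / 2) (q : QB k a) : htc (ncB ha h q) = 2 :=
  htc_fc _ _ _

theorem lv_addb (n m : ℕ) (t : BinaryTree Unit) : lv n (lv m t) = lv (n + m) t := by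
  induction n with
  | zero => rw [zero_add]; rfl
  | succ n ih =>
    rw [show n + 1 + m = (n + m) + 1 by ring, lv, lv, ih]

theorem lv_one (t : BinaryTree Unit) : lv 1 t = .nil △ t := rfl

theorem lv_in (n : ℕ) (t : BinaryTree Unit) : lv n (.nil △ t) = lv (n + 1) t := by
  rw [← lv_one, lv_addb]

theorem app_uT (n : ℕ) (t : BinaryTree Unit) : app (uT n) t = lv n t := by
  unfold uT
  rw [app_lv]
  rfl

theorem mk_X {t : BinaryTree Unit} (h : t.numNodes = k) : ∃ w : X k, w.1 = t :=
  ⟨⟨t, mem_treesOfNumNodesEq.2 h⟩, rfl⟩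

theorem tw2_num : tw2.numNodes = 2 := rfl

/-- the host of the link `b + 1 -> b` -/
def lkh (s : Bool) (b m t : ℕ) : BinaryTree Unit :=
  if b = 1 then (if s then app (uT (m + 1)) (tw2 △ .nil) else tw2 △ uT (m + 1))
  else lP b m t △ (.nil △ .nil)

/-- the lower new word of the link `2 -> 1` -/
def lki (s : Bool) (m : ℕ) : BinaryTree Unit :=
  if s then (.nil △ .nil) △ uT (m + 2) else lv (m + 2) tw2

theorem lf3 (f : ZMod (2 * 1 + 1) → ℕ) : lf f = [f 0, f 1, f 2] := rfl
theorem lf5 (f : ZMod (2 * 2 + 1) → ℕ) : lf f = [f 0, f 1, f 2, f 3, f 4] := rfl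

theorem ht_lvb (n : ℕ) (t : BinaryTree Unit) (h : 1 ≤ ht t) : ht (lv n t) = ht t := by
  induction n with
  | zero => rfl
  | succ n ih =>
    change max (0 + 1) (ht (lv n t)) = _
    omega

/-- **ONE LINK** -/
theorem link_ex (s : Bool) {b m m' t : ℕ} (hb : 1 ≤ b) (h1 : b = 1 → t = 0) (htm : t ≤ m)
    (hk : 2 * (b + 1) + m = k) (hm : m' = m + 2)
    (e1 : b + 1 + pkn (uX (b + 1)).1 + m = k) (e2 : b + pkn (uX b).1 + m' = k) :
    ∃ H O I : X k, H.1 = lkh s b m t ∧ ht H.1 = 3 ∧ pkn H.1 = k - (b + 1) ∧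
      (∀ P, H.1 ≠ P △ .nil) ∧ (b = 1 → I.1 = lki s m) ∧
      cyc O = fc (by omega) (uX (b + 1)) (T_uX _) e1 (clB (b + 1) m t) ∧
      cyc I = fc hb (uX b) (T_uX _) e2 (clB b m' t) ∧
      ∀ Old : Set (Cyc k), cyc H ∈ Old → HasSys Old {x | x = cyc O ∨ x = cyc I}
        {w | w = H ∨ w = O ∨ w = I} ∅ := by
  subst hm
  have key : ∀ H O I : X k, ht H.1 = 3 →
      cyc O = fc (by omega) (uX (b + 1)) (T_uX _) e1 (clB (b + 1) m t) →
      cyc I = fc hb (uX b) (T_uX _) e2 (clB b (m + 2) t) →
      cyc H ≠ cyc O ∧ cyc H ≠ cyc I ∧ cyc O ≠ cyc I := by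
    intro H O I a1 a2 a3
    refine ⟨?_, ?_, ?_⟩
    · intro h
      have := congrArg htc h
      rw [htc_cyc, a1, a2, htc_fc] at this
      omega
    · intro h
      have := congrArg htc h
      rw [htc_cyc, a1, a3, htc_fc] at this
      omega
    · intro h
      rw [a2, a3] at h
      have := congrArg pkc h
      rw [pkc_fc, pkc_fc] at this
      omega
  by_cases hb1 : b = 1
  · subst hb1
    have ht0 := h1 rfl
    subst ht0
    have hq : (uT (m + 1)).numNodes = m + 1 := uT_num _
    cases s with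
    | false =>
      obtain ⟨H, hH⟩ := mk_X (k := k) (t := w1 .nil tw2 (uT (m + 1))) (by
        rw [w1_num, tw2_num, hq, nz]; omega)
      obtain ⟨O, hO⟩ := mk_X (k := k) (t := w1 tw2 (uT (m + 1)) .nil) (by
        rw [w1_num, tw2_num, hq, nz]; omega)
      obtain ⟨I, hI⟩ := mk_X (k := k) (t := w1 (uT (m + 1)) .nil tw2) (by
        rw [w1_num, tw2_num, hq, nz]; omega)
      have c1 : ht H.1 = 3 := by
        rw [hH]
        change max (ht tw2 + 1) (ht (uT (m + 1))) = 3
        rw [ht_uT' _ (by omega)]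
        rfl
      have hI' : I.1 = lv (m + 2) tw2 := by
        rw [hI]
        change app (uT (m + 1)) (.nil △ tw2) = _
        rw [app_uT, lv_in]
      have c2 : cyc O = fc (by omega) (uX (1 + 1)) (T_uX _) e1 (clB (1 + 1) m 0) := by
        rw [cl_zero, ← pile_rot (3 : ZMod (2 * (1 + 1) + 1))]
        apply cyc_of
        rw [hO]
        rfl
      have c3 : cyc I = fc hb (uX 1) (T_uX _) e2 (clB 1 (m + 2) 0) := by
        rw [cl_zero]
        apply cyc_of
        rw [hI']
        rfl
      obtain ⟨n1, n2, n3⟩ := key H O I c1 c2 c3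
      refine ⟨H, O, I, ?_, c1, ?_, ?_, ?_, c2, c3, ?_⟩
      · rw [hH]; rfl
      · rw [hH]
        change leaf tw2 + pkn tw2 + pkn (uT (m + 1)) = _
        rw [uT_pkn]
        change 0 + 1 + (m + 1) = _
        omega
      · intro P hP
        rw [hH] at hP
        change tw2 △ (.nil △ uT m) = _ at hP
        injection hP with _ _ h
        simp at h
      · intro _
        rw [hI']
        rfl
      · intro Old hOld
        exact sys_tri' Old (P := .nil) (Q := tw2) (R := uT (m + 1)) (by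
          rw [tw2_num, hq, nz]; omega) hH hO hI n1 n2 n3 hOld
    | true =>
      obtain ⟨H, hH⟩ := mk_X (k := k) (t := w1 (uT (m + 1)) tw2 .nil) (by
        rw [w1_num, tw2_num, hq, nz]; omega)
      obtain ⟨O, hO⟩ := mk_X (k := k) (t := w1 .nil (uT (m + 1)) tw2) (by
        rw [w1_num, tw2_num, hq, nz]; omega)
      obtain ⟨I, hI⟩ := mk_X (k := k) (t := w1 tw2 .nil (uT (m + 1))) (by
        rw [w1_num, tw2_num, hq, nz]; omega)
      have hH' : H.1 = lv (m + 1) (tw2 △ .nil) := by
        rw [hH]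
        change app (uT (m + 1)) (tw2 △ .nil) = _
        rw [app_uT]
      have c1 : ht H.1 = 3 := by
        rw [hH', ht_lvb _ _ (by decide)]
        rfl
      have c2 : cyc O = fc (by omega) (uX (1 + 1)) (T_uX _) e1 (clB (1 + 1) m 0) := by
        rw [cl_zero, ← pile_rot (1 : ZMod (2 * (1 + 1) + 1))]
        apply cyc_of
        rw [hO]
        rfl
      have c3 : cyc I = fc hb (uX 1) (T_uX _) e2 (clB 1 (m + 2) 0) := by
        rw [cl_zero, ← pile_rot (2 : ZMod (2 * 1 + 1))]
        apply cyc_of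
        rw [hI]
        rfl
      obtain ⟨n1, n2, n3⟩ := key H O I c1 c2 c3
      refine ⟨H, O, I, ?_, c1, ?_, ?_, ?_, c2, c3, ?_⟩
      · rw [hH]; rfl
      · rw [hH', lv_pkn]
        change m + 1 + (0 + 1 + 0) = _
        omega
      · intro P hP
        rw [hH'] at hP
        change .nil △ lv m (tw2 △ .nil) = _ at hP
        injection hP with _ _ h
        have h5 := congrArg BinaryTree.numNodes h
        rw [lv_num, nz, nn] at h5
        omega
      · intro _
        rw [hI]
        rfl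
      · intro Old hOld
        have h := sys_tri' Old (P := uT (m + 1)) (Q := tw2) (R := .nil) (by
          rw [tw2_num, hq, nz]; omega) hH hI hO n2 n1 n3.symm hOld
        have e : {x | x = cyc I ∨ x = cyc O} = {x | x = cyc O ∨ x = cyc I} := by
          ext x
          exact or_comm
        rw [e] at h
        refine h.mono ?_ (fun _ hx => hx)
        rintro w (h | h | h)
        · exact Or.inl h
        · exact Or.inr (Or.inr h)
        · exact Or.inr (Or.inl h)
  · have hP := lP_num b m t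
    have hne : lP b m t ≠ .nil := by
      intro h
      rw [h, nz] at hP
      omega
    obtain ⟨H, hH⟩ := mk_X (k := k) (t := w1 .nil (lP b m t) (.nil △ .nil)) (by
      rw [w1_num, hP, nn, nz]; omega)
    obtain ⟨O, hO⟩ := mk_X (k := k) (t := w1 (lP b m t) (.nil △ .nil) .nil) (by
      rw [w1_num, hP, nn, nz]; omega)
    obtain ⟨I, hI⟩ := mk_X (k := k) (t := w1 (.nil △ .nil) .nil (lP b m t)) (by
      rw [w1_num, hP, nn, nz]; omega)
    have c1 : ht H.1 = 3 := by
      rw [hH]
      change max (ht (lP b m t) + 1) (max (0 + 1) 0) = 3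
      unfold lP
      rw [ht_yT _ _ hb]
      change max (ht (uT b) + 1 + 1) _ = 3
      rw [ht_uT' b hb]
      rfl
    have c2 : cyc O = fc (by omega) (uX (b + 1)) (T_uX _) e1 (clB (b + 1) m t) := by
      apply cyc_of
      rw [hO, ← lP_out b m t hb]
      rfl
    have c3 : cyc I = fc hb (uX b) (T_uX _) e2 (clB b (m + 2) t) := by
      apply cyc_of
      rw [hI, ← lP_in b m t htm]
      rfl
    obtain ⟨n1, n2, n3⟩ := key H O I c1 c2 c3
    refine ⟨H, O, I, ?_, c1, ?_, ?_, fun h => absurd h hb1, c2, c3, ?_⟩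
    · rw [hH]
      unfold lkh
      rw [if_neg hb1]
      rfl
    · rw [hH]
      change leaf (lP b m t) + pkn (lP b m t) + (1 + 0 + 0) = _
      have hl : leaf (lP b m t) = 0 := by
        cases hh : lP b m t with
        | nil => exact absurd hh hne
        | node _ A B => rfl
      have hp : pkn (lP b m t) = b + m := by
        unfold lP yT
        rw [(ins_num _ _ (by rw [lf_length, X_num])).2, lf_sum, (cm b m t).2]
        change pkn (uT b) + m = _
        rw [uT_pkn]
      rw [hl, hp]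
      omega
    · intro P hP'
      rw [hH] at hP'
      change lP b m t △ (.nil △ .nil) = _ at hP'
      injection hP' with _ _ h
      simp at h
    · intro Old hOld
      exact sys_tri' Old (P := .nil) (Q := lP b m t) (R := .nil △ .nil) (by
        rw [hP, nn, nz]; omega) hH hO hI n1 n2 n3 hOld

end Pool.OddHC
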