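import Pool.Agent.Work.MP_8f87b2_bot.Bot4

/-!
MP_8f87b2_co, bottom: the last triple with `()^k`, the hop systems of the nodes.
-/

set_option autoImplicit false

namespace Pool.OddHC

open Finset BinaryTree Pool.OddHop

variable {k : ℕ}

/-! ### The last triple -/

/-- the neighbour classes of the pile in the first node -/
noncomputable def ycl (s : Bool) {m : ℕ} (hm : 1 ≤ m) : Quotient (msSetoid m (one_dvd (2 * 1 + 1))) :=
  Quotient.mk _ (nearMs hm 0 (if s then 0 + 1 else 0 - 1))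

/-- the link `2 -> 1` is used: the last triple is `()(()^(k-2))`, `(())()^(k-2)`, `()^k` or its mirror image -/
theorem last_used (s : Bool) {m : ℕ} (hm : 3 ≤ m) (hk : 2 + m = k)
    (e1 : 1 + pkn (uX 1).1 + m = k) :
    ∃ H Y : X k, cyc H = fc (by omega) (uX 1) (T_uX _) e1 (clB 1 m 0) ∧ H.1 ≠ lki s (m - 2) ∧
      cyc Y = fc (by omega) (uX 1) (T_uX _) e1 (ycl s (by omega)) ∧
      ∀ Old : Set (Cyc k), cyc H ∈ Old → HasSys Old {x | x = cyc Y ∨ x = cyc (uX k)}
        {w | w = H ∨ w = Y ∨ w = uX k} ∅ := by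
  have hq : (uT m).numNodes = m := uT_num _
  have hn0 : (BinaryTree.nil △ .nil : BinaryTree Unit).numNodes = 1 := rfl
  have hp1 := pile_ne_near (m := m) (one_dvd (2 * 1 + 1)) hm 0 (0 + 1) (by decide)
  have hp2 := pile_ne_near (m := m) (one_dvd (2 * 1 + 1)) hm 0 (0 - 1) (by decide)
  have huk : (uX k).1 = lv (m + 2) .nil := by
    change lv k .nil = _
    rw [← hk, add_comm]
  have key : ∀ H Y : X k, cyc H = fc (by omega) (uX 1) (T_uX _) e1 (clB 1 m 0) →
      cyc Y = fc (by omega) (uX 1) (T_uX _) e1 (ycl s (by omega)) →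
      cyc H ≠ cyc Y ∧ cyc H ≠ cyc (uX k) ∧ cyc Y ≠ cyc (uX k) := by
    intro H Y a1 a2
    have hu : htc (cyc (uX k)) = 1 := by
      rw [htc_cyc]
      exact ht_uT' k (by omega)
    refine ⟨?_, ?_, ?_⟩
    · intro h
      rw [a1, a2] at h
      have h2 := fc_inj _ _ _ _ h
      rw [cl_zero] at h2
      cases s
      · exact hp2 h2
      · exact hp1 h2
    · intro h
      have := congrArg htc h
      rw [a1, htc_fc, hu] at this
      omega
    · intro h
      have := congrArg htc h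
      rw [a2, htc_fc, hu] at this
      omega
  cases s with
  | false =>
    obtain ⟨H, hH⟩ := mk_X (k := k) (t := w1 .nil (.nil △ .nil) (uT m)) (by
      rw [w1_num, hn0, hq, nz]; omega)
    obtain ⟨Y, hY⟩ := mk_X (k := k) (t := w1 (.nil △ .nil) (uT m) .nil) (by
      rw [w1_num, hn0, hq, nz]; omega)
    have c1 : cyc H = fc (by omega) (uX 1) (T_uX _) e1 (clB 1 m 0) := by
      rw [cl_zero, ← pile_rot (2 : ZMod (2 * 1 + 1))]
      apply cyc_of
      rw [hH]
      rfl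
    have c2 : cyc Y = fc (by omega) (uX 1) (T_uX _) e1 (ycl false (by omega)) := by
      change _ = fc _ _ _ _ (Quotient.mk _ (nearMs (show 1 ≤ m by omega) (0 : ZMod (2 * 1 + 1)) (0 - 1)))
      rw [← near_rot (show 1 ≤ m by omega) (1 : ZMod (2 * 1 + 1)) 0 (0 - 1)]
      apply cyc_of
      rw [hY]
      change .nil △ (uT m △ .nil) = _
      rw [lf3]
      have f0 : (nearMs (show 1 ≤ m by omega) ((0 : ZMod (2 * 1 + 1)) + 1) (0 - 1 + 1)).1 0 = 1 := by
        change (if (0 : ZMod (2 * 1 + 1)) = 0 + 1 then m - 1 else 0) +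
          (if (0 : ZMod (2 * 1 + 1)) = 0 - 1 + 1 then 1 else 0) = 1
        rw [if_neg (by decide), if_pos (by decide)]
      have f1 : (nearMs (show 1 ≤ m by omega) ((0 : ZMod (2 * 1 + 1)) + 1) (0 - 1 + 1)).1 1 = m - 1 := by
        change (if (1 : ZMod (2 * 1 + 1)) = 0 + 1 then m - 1 else 0) +
          (if (1 : ZMod (2 * 1 + 1)) = 0 - 1 + 1 then 1 else 0) = m - 1
        rw [if_pos (by decide), if_neg (by decide)]; rfl
      have f2 : (nearMs (show 1 ≤ m by omega) ((0 : ZMod (2 * 1 + 1)) + 1) (0 - 1 + 1)).1 2 = 0 := by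
        change (if (2 : ZMod (2 * 1 + 1)) = 0 + 1 then m - 1 else 0) +
          (if (2 : ZMod (2 * 1 + 1)) = 0 - 1 + 1 then 1 else 0) = 0
        rw [if_neg (by decide), if_neg (by decide)]
      rw [f0, f1, f2]
      change _ = lv 1 ((lv (m - 1 + 1) .nil) △ lv 0 .nil)
      rw [show m - 1 + 1 = m by omega]
      rfl
    obtain ⟨n1, n2, n3⟩ := key H Y c1 c2
    refine ⟨H, Y, c1, ?_, c2, ?_⟩
    · rw [hH]
      change (.nil △ .nil) △ uT m ≠ .nil △ lv (m - 2 + 1) tw2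
      intro h
      injection h with _ h _
      simp at h
    · intro Old hOld
      exact sys_tri' Old (P := .nil) (Q := .nil △ .nil) (R := uT m) (by
        rw [hn0, hq, nz]; omega) hH hY (by
          rw [huk]
          change _ = app (uT m) (.nil △ (.nil △ .nil))
          rw [app_uT, lv_in, lv_in]) n1 n2 n3 hOld
  | true =>
    obtain ⟨H, hH⟩ := mk_X (k := k) (t := w1 (uT m) (.nil △ .nil) .nil) (by
      rw [w1_num, hn0, hq, nz]; omega)
    obtain ⟨Y, hY⟩ := mk_X (k := k) (t := w1 .nil (uT m) (.nil △ .nil)) (by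
      rw [w1_num, hn0, hq, nz]; omega)
    have hH' : H.1 = lv m tw2 := by
      rw [hH]
      change app (uT m) tw2 = _
      rw [app_uT]
    have c1 : cyc H = fc (by omega) (uX 1) (T_uX _) e1 (clB 1 m 0) := by
      rw [cl_zero]
      apply cyc_of
      rw [hH']
      rfl
    have c2 : cyc Y = fc (by omega) (uX 1) (T_uX _) e1 (ycl true (by omega)) := by
      change _ = fc _ _ _ _ (Quotient.mk _ (nearMs (show 1 ≤ m by omega) (0 : ZMod (2 * 1 + 1)) (0 + 1)))
      rw [← near_rot (show 1 ≤ m by omega) (1 : ZMod (2 * 1 + 1)) 0 (0 + 1)]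
      apply cyc_of
      rw [hY]
      change uT m △ (.nil △ .nil) = _
      rw [lf3]
      have f0 : (nearMs (show 1 ≤ m by omega) ((0 : ZMod (2 * 1 + 1)) + 1) (0 + 1 + 1)).1 0 = 0 := by
        change (if (0 : ZMod (2 * 1 + 1)) = 0 + 1 then m - 1 else 0) +
          (if (0 : ZMod (2 * 1 + 1)) = 0 + 1 + 1 then 1 else 0) = 0
        rw [if_neg (by decide), if_neg (by decide)]
      have f1 : (nearMs (show 1 ≤ m by omega) ((0 : ZMod (2 * 1 + 1)) + 1) (0 + 1 + 1)).1 1 = m - 1 := by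
        change (if (1 : ZMod (2 * 1 + 1)) = 0 + 1 then m - 1 else 0) +
          (if (1 : ZMod (2 * 1 + 1)) = 0 + 1 + 1 then 1 else 0) = m - 1
        rw [if_pos (by decide), if_neg (by decide)]; rfl
      have f2 : (nearMs (show 1 ≤ m by omega) ((0 : ZMod (2 * 1 + 1)) + 1) (0 + 1 + 1)).1 2 = 1 := by
        change (if (2 : ZMod (2 * 1 + 1)) = 0 + 1 then m - 1 else 0) +
          (if (2 : ZMod (2 * 1 + 1)) = 0 + 1 + 1 then 1 else 0) = 1
        rw [if_neg (by decide), if_pos (by decide)]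
      rw [f0, f1, f2]
      change _ = lv 0 ((lv (m - 1 + 1) .nil) △ lv 1 .nil)
      rw [show m - 1 + 1 = m by omega]
      rfl
    obtain ⟨n1, n2, n3⟩ := key H Y c1 c2
    refine ⟨H, Y, c1, ?_, c2, ?_⟩
    · rw [hH']
      change lv m tw2 ≠ (.nil △ .nil) △ uT (m - 2 + 2)
      obtain ⟨l, rfl⟩ : ∃ l, m = l + 1 := ⟨m - 1, by omega⟩
      change .nil △ lv l tw2 ≠ _
      intro h
      injection h with _ h _
      simp at h
    · intro Old hOld
      have h := sys_tri' Old (P := uT m) (Q := .nil △ .nil) (R := .nil) (by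
        rw [hn0, hq, nz]; omega) hH (b := uX k) (by
          rw [huk]
          rfl) hY n2 n1 n3.symm hOld
      have e : {x | x = cyc (uX k) ∨ x = cyc Y} = {x | x = cyc Y ∨ x = cyc (uX k)} := by
        ext x
        exact or_comm
      rw [e] at h
      refine h.mono ?_ (fun _ hx => hx)
      rintro w (h | h | h)
      · exact Or.inl h
      · exact Or.inr (Or.inr h)
      · exact Or.inr (Or.inl h)

/-- the link `2 -> 1` is not used: the last triple is `()^(k-2)(())`, `(()^(k-2))()`, `()^k` -/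
theorem last_free {m : ℕ} (hm : 3 ≤ m) (hk : 2 + m = k) (e1 : 1 + pkn (uX 1).1 + m = k) :
    ∃ H Y : X k, H.1 = uT m △ (.nil △ .nil) ∧
      H.1 = ins (uT 1) (lf (nearMs (show 1 ≤ m by omega) ((0 : ZMod (2 * 1 + 1)) + 1) (0 + 1 + 1)).1) ∧
      cyc H = fc (by omega) (uX 1) (T_uX _) e1 (ycl true (by omega)) ∧
      cyc Y = fc (by omega) (uX 1) (T_uX _) e1 (clB 1 m 0) ∧
      ∀ Old : Set (Cyc k), cyc H ∈ Old → HasSys Old {x | x = cyc Y ∨ x = cyc (uX k)}
        {w | w = H ∨ w = Y ∨ w = uX k} ∅ := by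
  have hq : (uT m).numNodes = m := uT_num _
  have hn0 : (BinaryTree.nil △ .nil : BinaryTree Unit).numNodes = 1 := rfl
  have hp1 := pile_ne_near (m := m) (one_dvd (2 * 1 + 1)) hm 0 (0 + 1) (by decide)
  have huk : (uX k).1 = lv (m + 2) .nil := by
    change lv k .nil = _
    rw [← hk, add_comm]
  obtain ⟨Y, hY⟩ := mk_X (k := k) (t := w1 (uT m) (.nil △ .nil) .nil) (by
    rw [w1_num, hn0, hq, nz]; omega)
  obtain ⟨H, hH⟩ := mk_X (k := k) (t := w1 .nil (uT m) (.nil △ .nil)) (by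
    rw [w1_num, hn0, hq, nz]; omega)
  have hY' : Y.1 = lv m tw2 := by
    rw [hY]
    change app (uT m) tw2 = _
    rw [app_uT]
  have c1 : cyc Y = fc (by omega) (uX 1) (T_uX _) e1 (clB 1 m 0) := by
    rw [cl_zero]
    apply cyc_of
    rw [hY']
    rfl
  have c0 : H.1 = ins (uT 1) (lf (nearMs (show 1 ≤ m by omega) ((0 : ZMod (2 * 1 + 1)) + 1) (0 + 1 + 1)).1) := by
    rw [hH]
    change uT m △ (.nil △ .nil) = _
    rw [lf3]
    have f0 : (nearMs (show 1 ≤ m by omega) ((0 : ZMod (2 * 1 + 1)) + 1) (0 + 1 + 1)).1 0 = 0 := by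
      change (if (0 : ZMod (2 * 1 + 1)) = 0 + 1 then m - 1 else 0) +
        (if (0 : ZMod (2 * 1 + 1)) = 0 + 1 + 1 then 1 else 0) = 0
      rw [if_neg (by decide), if_neg (by decide)]
    have f1 : (nearMs (show 1 ≤ m by omega) ((0 : ZMod (2 * 1 + 1)) + 1) (0 + 1 + 1)).1 1 = m - 1 := by
      change (if (1 : ZMod (2 * 1 + 1)) = 0 + 1 then m - 1 else 0) +
        (if (1 : ZMod (2 * 1 + 1)) = 0 + 1 + 1 then 1 else 0) = m - 1
      rw [if_pos (by decide), if_neg (by decide)]; rfl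
    have f2 : (nearMs (show 1 ≤ m by omega) ((0 : ZMod (2 * 1 + 1)) + 1) (0 + 1 + 1)).1 2 = 1 := by
      change (if (2 : ZMod (2 * 1 + 1)) = 0 + 1 then m - 1 else 0) +
        (if (2 : ZMod (2 * 1 + 1)) = 0 + 1 + 1 then 1 else 0) = 1
      rw [if_neg (by decide), if_pos (by decide)]
    rw [f0, f1, f2]
    change _ = lv 0 ((lv (m - 1 + 1) .nil) △ lv 1 .nil)
    rw [show m - 1 + 1 = m by omega]
    rfl
  have c2 : cyc H = fc (by omega) (uX 1) (T_uX _) e1 (ycl true (by omega)) := by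
    change _ = fc _ _ _ _ (Quotient.mk _ (nearMs (show 1 ≤ m by omega) (0 : ZMod (2 * 1 + 1)) (0 + 1)))
    rw [← near_rot (show 1 ≤ m by omega) (1 : ZMod (2 * 1 + 1)) 0 (0 + 1)]
    exact cyc_of _ _ _ c0
  have hu : htc (cyc (uX k)) = 1 := by
    rw [htc_cyc]
    exact ht_uT' k (by omega)
  have n1 : cyc H ≠ cyc Y := by
    intro h
    rw [c1, c2] at h
    have h2 := fc_inj _ _ _ _ h
    rw [cl_zero] at h2
    exact hp1 h2.symm
  have n2 : cyc H ≠ cyc (uX k) := by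
    intro h
    have := congrArg htc h
    rw [c2, htc_fc, hu] at this
    omega
  have n3 : cyc Y ≠ cyc (uX k) := by
    intro h
    have := congrArg htc h
    rw [c1, htc_fc, hu] at this
    omega
  refine ⟨H, Y, hH, c0, c2, c1, ?_⟩
  intro Old hOld
  exact sys_tri' Old (P := .nil) (Q := uT m) (R := .nil △ .nil) (by
    rw [hn0, hq, nz]; omega) hH hY (by
      rw [huk]
      change _ = .nil △ (.nil △ uT m)
      rfl) n1 n2 n3 hOld

/-! ### The hop systems -/

/-- the matched cycles of the node `a` -/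
def NE (ι : ∀ a, QB k a → QB k a) (a : ℕ) : Set (Cyc k) :=
  {c | ∃ (ha : 1 ≤ a) (h : a ≤ k / 2) (q : QB k a), ι a q ≠ q ∧ ncB ha h q = c}

def WE (ι : ∀ a, QB k a → QB k a) (a : ℕ) : Set (X k) :=
  {w | ∃ (h : a ≤ k / 2), w ∈ EW (uX a) (hkb h) (ι a)}

theorem sysE (ι : ∀ a, QB k a → QB k a) {a : ℕ} (ha : 1 ≤ a) (h : a ≤ k / 2)
    (h1 : ∀ q, ι a (ι a q) = q) (h2 : ∀ q, ι a q = q ∨ HopQ (one_dvd _) q (ι a q)) :
    HasSys {c | 3 ≤ htc c} (NE ι a) (WE ι a) ∅ := by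
  have hs := sys_efix ha (uX a) (T_uX a) (hkb h) (ι a) h1 h2 {c | 3 ≤ htc c} (by
    intro f hf _ _
    change 3 ≤ htc (cyc _)
    rw [htc_cyc, ht_wH _ _ _ ha]
    change 3 ≤ ht (uT a) + 2
    rw [ht_uT' a ha])
  have e : {c | ∃ q, ι a q ≠ q ∧ fc ha (uX a) (T_uX a) (hkb h) q = c} = NE ι a := by
    ext c
    constructor
    · rintro ⟨q, hq, hc⟩
      exact ⟨ha, h, q, hq, hc⟩
    · rintro ⟨_, _, q, hq, hc⟩
      exact ⟨q, hq, hc⟩
  rw [e] at hs
  exact hs.mono (fun w hw => ⟨h, hw⟩) (fun _ hx => hx)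

theorem WE_cases (ι : ∀ a, QB k a → QB k a) {a : ℕ} (ha : 1 ≤ a) {w : X k} (hw : w ∈ WE ι a) :
    (∃ (f : ZMod (2 * a + 1) → ℕ) (hf : a + pkn (uX a).1 + (∑ z, f z + 1) = k),
      w = wH (uX a) f hf) ∨ cyc w ∈ NE ι a := by
  obtain ⟨h, f, hf, a1, a2, a3, a4⟩ := hw
  rcases a4 with a4 | a4 | a4
  · exact Or.inl ⟨f, _, a4⟩
  · right
    rw [a4]
    exact ⟨ha, h, qB f hf (-1), by rw [a2]; exact a3, (wB_cyc ha _ (T_uX a) (hkb h) f hf).symm⟩
  · right
    rw [a4]
    exact ⟨ha, h, qB f hf 0, by rw [a1]; exact a3.symm, (wF_cyc ha _ (T_uX a) (hkb h) f hf).symm⟩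

theorem NE_ht {ι : ∀ a, QB k a → QB k a} {a : ℕ} {c : Cyc k} (h : c ∈ NE ι a) :
    htc c = 2 ∧ pkc c = k - a ∧ 1 ≤ a ∧ a ≤ k / 2 := by
  obtain ⟨ha, h', q, hq, rfl⟩ := h
  exact ⟨ncB_ht _ _ _, ncB_pk _ _ _, ha, h'⟩

theorem ht_wHa {a : ℕ} (ha : 1 ≤ a) (f : ZMod (2 * a + 1) → ℕ)
    (hf : a + pkn (uX a).1 + (∑ z, f z + 1) = k) : ht (wH (uX a) f hf).1 = 3 := by
  rw [ht_wH _ _ _ ha]
  change ht (uT a) + 2 = 3
  rw [ht_uT' a ha]

/-- all hop systems together -/
theorem sysE_all (ι : ∀ a, QB k a → QB k a)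
    (h1 : ∀ a, 1 ≤ a → a ≤ k / 2 → ∀ q, ι a (ι a q) = q)
    (h2 : ∀ a, 1 ≤ a → a ≤ k / 2 → ∀ q, ι a q = q ∨ HopQ (one_dvd _) q (ι a q)) :
    HasSys {c | 3 ≤ htc c} {c | ∃ i < k / 2, c ∈ NE ι (i + 1)} {w | ∃ i < k / 2, w ∈ WE ι (i + 1)}
      ∅ := by
  apply sys_range _ (fun i => NE ι (i + 1)) (fun i => WE ι (i + 1))
  · intro i hi
    exact sysE ι (by omega) (by omega) (h1 _ (by omega) (by omega)) (h2 _ (by omega) (by omega))
  · intro i hi j hj c hc hc'
    obtain ⟨a1, a2, a3, a4⟩ := NE_ht hc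
    obtain ⟨b1, b2, b3, b4⟩ := NE_ht hc'
    omega
  · intro i hi j hj w hw hw'
    rcases WE_cases ι (by omega) hw with ⟨f, hf, e⟩ | e
    · rcases WE_cases ι (by omega) hw' with ⟨f', hf', e'⟩ | e'
      · have e2 := congrArg Subtype.val (e.symm.trans e')
        change yT (uX (j + 1)) f △ .nil = yT (uX (i + 1)) f' △ .nil at e2
        injection e2 with _ e3 _
        unfold yT at e3
        obtain ⟨e4, -⟩ := ins_inj (by rw [lf_length, X_num]) (by rw [lf_length, X_num]) e3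
        have e5 := congrArg BinaryTree.numNodes e4
        change (uT (j + 1)).numNodes = (uT (i + 1)).numNodes at e5
        rw [uT_num, uT_num] at e5
        omega
      · have := (NE_ht e').1
        rw [e, htc_cyc, ht_wHa (by omega)] at this
        omega
    · rcases WE_cases ι (by omega) hw' with ⟨f', hf', e'⟩ | e'
      · have := (NE_ht e).1
        rw [e', htc_cyc, ht_wHa (by omega)] at this
        omega
      · obtain ⟨a1, a2, a3, a4⟩ := NE_ht e
        obtain ⟨b1, b2, b3, b4⟩ := NE_ht e'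
        omega

end Pool.OddHC
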