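import Pool.Agent.Work.MP_8f87b2_bot.Bot5

/-!
MP_8f87b2_co: THE BOTTOM (heights 2 and 1) as a system.
-/

set_option autoImplicit false

namespace Pool.OddHC

open Finset BinaryTree Pool.OddHop

variable {k : ℕ}

/-- the type of the link `a -> a - 1` -/
def tb (k a : ℕ) : ℕ := (k / 2 - a) % 2

theorem tb_succ {a : ℕ} (h : a + 1 ≤ k / 2) : tb k (a + 1) = 1 - tb k a := by
  unfold tb
  omega

theorem tb_le {a : ℕ} (h : a ≤ k / 2) : tb k a ≤ k - 2 * a := by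
  unfold tb
  omega

/-- the data of the bottom -/
structure BotD (k : ℕ) (s : Bool) (hk : 6 ≤ k) (ι : ∀ a, QB k a → QB k a) (H O I : ℕ → X k) :
    Prop where
  inv : ∀ a, 1 ≤ a → a ≤ k / 2 → ∀ q, ι a (ι a q) = q
  hop : ∀ a, 1 ≤ a → a ≤ k / 2 → ∀ q, ι a q = q ∨ HopQ (one_dvd _) q (ι a q)
  fix : ∀ a, 2 ≤ a → a ≤ k / 2 → ∀ x, ι a x = x ↔ (used k a ∧ x = clB a (k - 2 * a) (tb k a)) ∨
    (used k (a + 1) ∧ x = clB a (k - 2 * a) (1 - tb k a))
  fix1 : used k 2 → ∀ x, ι 1 x = x ↔ x = clB 1 (k - 2 * 1) 0 ∨ x = ycl s (by omega)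
  fix1' : ¬ used k 2 → ∀ x, ι 1 x = x ↔ x = clB 1 (k - 2 * 1) 0
  far : ¬ used k 2 → ι 1 (ycl true (by omega)) ≠ ycl false (by omega)
  lH : ∀ i, i + 1 + 1 ≤ k / 2 → used k (i + 1 + 1) →
    (H i).1 = lkh s (i + 1) (k - 2 * (i + 1 + 1)) (tb k (i + 1 + 1))
  lht : ∀ i, i + 1 + 1 ≤ k / 2 → used k (i + 1 + 1) → ht (H i).1 = 3
  lpk : ∀ i, i + 1 + 1 ≤ k / 2 → used k (i + 1 + 1) → pkn (H i).1 = k - (i + 1 + 1)
  lpr : ∀ i, i + 1 + 1 ≤ k / 2 → used k (i + 1 + 1) → ∀ P, (H i).1 ≠ P △ .nil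
  lI : 0 + 1 + 1 ≤ k / 2 → used k (0 + 1 + 1) → (I 0).1 = lki s (k - 2 * (0 + 1 + 1))
  lO : ∀ i, ∀ h : i + 1 + 1 ≤ k / 2, used k (i + 1 + 1) →
    cyc (O i) = ncB (by omega) h (clB (i + 1 + 1) (k - 2 * (i + 1 + 1)) (tb k (i + 1 + 1)))
  lIc : ∀ i, ∀ h : i + 1 + 1 ≤ k / 2, used k (i + 1 + 1) →
    cyc (I i) = ncB (by omega) (by omega) (clB (i + 1) (k - 2 * (i + 1)) (tb k (i + 1 + 1)))
  lS : ∀ i, i + 1 + 1 ≤ k / 2 → used k (i + 1 + 1) → ∀ Old : Set (Cyc k), cyc (H i) ∈ Old →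
    HasSys Old {x | x = cyc (O i) ∨ x = cyc (I i)} {w | w = H i ∨ w = O i ∨ w = I i} ∅

theorem odd_one (hk : 6 ≤ k) : Odd (Nat.card (QB k 1)) ↔ ¬ used k 2 := by
  rw [odd_QB (by omega)]
  have h1 := used_one (show 2 ≤ k by omega)
  rw [used_succ (by omega)] at h1
  change ¬ (_ ↔ used k 2) at h1
  tauto

theorem bot_data (s : Bool) (hk : 6 ≤ k) : ∃ ι H O I, BotD k s hk ι H O I := by
  classical
  -- node 1
  have hn1 : ∃ ι1 : QB k 1 → QB k 1, (∀ q, ι1 (ι1 q) = q) ∧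
      (∀ q, ι1 q = q ∨ HopQ (one_dvd _) q (ι1 q)) ∧
      (used k 2 → ∀ x, ι1 x = x ↔ x = clB 1 (k - 2 * 1) 0 ∨ x = ycl s (by omega)) ∧
      (¬ used k 2 → ∀ x, ι1 x = x ↔ x = clB 1 (k - 2 * 1) 0) ∧
      (¬ used k 2 → ι1 (ycl true (by omega)) ≠ ycl false (by omega)) := by
    by_cases hu : used k 2
    · have hev : Even (Nat.card (QB k 1)) := by
        rw [← Nat.not_odd_iff_even, odd_one hk]
        exact fun h => h hu
      obtain ⟨ι, h1, h2, h3⟩ := near_py (n := 2 * 1 + 1) (m := k - 2 * 1) ⟨1, rfl⟩ (by omega)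
        (one_dvd _) (by omega) 0 (if s then 0 + 1 else 0 - 1) (by cases s <;> simp) hev
      refine ⟨ι, h1, h2, fun _ x => ?_, fun h => absurd hu h, fun h => absurd hu h⟩
      rw [h3, cl_zero]
      rfl
    · obtain ⟨ι, h1, h2, h3, h4⟩ := node1_far (m := k - 2 * 1) (by omega) ((odd_one hk).2 hu)
      refine ⟨ι, h1, h2, fun h => absurd h hu, fun _ x => ?_, fun _ => h4⟩
      rw [h3, cl_zero]
  obtain ⟨ι1, i1, i2, i3, i4, i5⟩ := hn1
  -- the other nodes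
  have hn2 : ∀ n, ∃ ι : QB k (n + 2) → QB k (n + 2), n + 2 ≤ k / 2 → (∀ x, ι (ι x) = x) ∧
      (∀ x, ι x = x ∨ HopQ (one_dvd _) x (ι x)) ∧
      ∀ x, ι x = x ↔ (used k (n + 2) ∧ x = clB (n + 2) (k - 2 * (n + 2)) (tb k (n + 2))) ∨
        (used k (n + 2 + 1) ∧ x = clB (n + 2) (k - 2 * (n + 2)) (1 - tb k (n + 2))) := by
    intro n
    by_cases h : n + 2 ≤ k / 2
    · obtain ⟨ι, h1⟩ := node_ex (k := k) (a := n + 2) (by omega) h
      exact ⟨ι, fun _ => h1⟩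
    · exact ⟨id, fun h' => absurd h' h⟩
  choose ι2 hι2 using hn2
  let ι : ∀ a, QB k a → QB k a := fun a => match a with
    | 0 => id
    | 1 => ι1
    | n + 2 => ι2 n
  -- the links
  have hl : ∀ i, ∃ H O I : X k, ∀ h : i + 1 + 1 ≤ k / 2, used k (i + 1 + 1) →
      H.1 = lkh s (i + 1) (k - 2 * (i + 1 + 1)) (tb k (i + 1 + 1)) ∧ ht H.1 = 3 ∧
      pkn H.1 = k - (i + 1 + 1) ∧ (∀ P, H.1 ≠ P △ .nil) ∧
      (i + 1 = 1 → I.1 = lki s (k - 2 * (i + 1 + 1))) ∧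
      cyc O = ncB (by omega) h (clB (i + 1 + 1) (k - 2 * (i + 1 + 1)) (tb k (i + 1 + 1))) ∧
      cyc I = ncB (by omega) (by omega) (clB (i + 1) (k - 2 * (i + 1)) (tb k (i + 1 + 1))) ∧
      ∀ Old : Set (Cyc k), cyc H ∈ Old → HasSys Old {x | x = cyc O ∨ x = cyc I}
        {w | w = H ∨ w = O ∨ w = I} ∅ := by
    intro i
    by_cases h : i + 1 + 1 ≤ k / 2 ∧ used k (i + 1 + 1)
    · obtain ⟨h, hu⟩ := h
      obtain ⟨H, O, I, a⟩ := link_ex (k := k) s (b := i + 1) (m := k - 2 * (i + 1 + 1))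
        (m' := k - 2 * (i + 1)) (t := tb k (i + 1 + 1)) (by omega) (by
          intro hi
          have hi0 : i = 0 := by omega
          subst hi0
          have := used_two (by omega) hu
          unfold tb
          omega) (tb_le h) (by omega) (by omega) (hkb h) (hkb (by omega))
      exact ⟨H, O, I, fun _ _ => a⟩
    · exact ⟨uX k, uX k, uX k, fun h1 h2 => absurd ⟨h1, h2⟩ h⟩
  choose H O I hL using hl
  refine ⟨ι, H, O, I, ?_⟩
  constructor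
  · intro a h1 h2
    match a with
    | 0 => omega
    | 1 => exact i1
    | n + 2 => exact (hι2 n h2).1
  · intro a h1 h2
    match a with
    | 0 => omega
    | 1 => exact i2
    | n + 2 => exact (hι2 n h2).2.1
  · intro a h1 h2
    match a with
    | 0 => omega
    | 1 => omega
    | n + 2 => exact (hι2 n h2).2.2
  · exact i3
  · exact i4
  · exact i5
  · exact fun i h hu => (hL i h hu).1
  · exact fun i h hu => (hL i h hu).2.1
  · exact fun i h hu => (hL i h hu).2.2.1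
  · exact fun i h hu => (hL i h hu).2.2.2.1
  · exact fun h hu => (hL 0 h hu).2.2.2.2.1 rfl
  · exact fun i h hu => (hL i h hu).2.2.2.2.2.1
  · exact fun i h hu => (hL i h hu).2.2.2.2.2.2.1
  · exact fun i h hu => (hL i h hu).2.2.2.2.2.2.2

/-- the two prescribed classes are different -/
theorem cl_ne {a m : ℕ} (ha : 1 ≤ a) (hm : 2 ≤ m) : clB a m 0 ≠ clB a m 1 := by
  rcases (by omega : m = 2 ∨ 3 ≤ m) with rfl | h
  · rw [cl_two_zero, cl_two_one]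
    intro h
    have := q2_inj (by omega) ha h
    omega
  · rw [cl_zero, cl_one (by omega)]
    apply pile_ne_near (one_dvd _) h
    intro h0
    have h1 : (1 : ZMod (2 * a + 1)) = 0 := by simpa using h0
    have h2 := cast_eq_iff (n := 2 * a + 1) (x := 1) (y := 0) (by omega) (by omega)
    rw [Nat.cast_one, Nat.cast_zero] at h2
    have := h2.1 h1
    omega

/-- the cycles of a link -/
def NL (k : ℕ) (O I : ℕ → X k) (i : ℕ) : Set (Cyc k) :=
  {c | i + 1 + 1 ≤ k / 2 ∧ used k (i + 1 + 1) ∧ (c = cyc (O i) ∨ c = cyc (I i))}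
def WL (k : ℕ) (H O I : ℕ → X k) (i : ℕ) : Set (X k) :=
  {w | i + 1 + 1 ≤ k / 2 ∧ used k (i + 1 + 1) ∧ (w = H i ∨ w = O i ∨ w = I i)}

variable {s : Bool} {hk : 6 ≤ k} {ι : ∀ a, QB k a → QB k a} {H O I : ℕ → X k}

namespace BotD

/-- the cycle of a link: height 2, the number of peaks, matched nowhere -/
theorem nl (B : BotD k s hk ι H O I) {i : ℕ} {c : Cyc k} (hc : c ∈ NL k O I i) :
    ∃ (a : ℕ) (ha : 1 ≤ a) (h : a ≤ k / 2) (t : ℕ), c = ncB ha h (clB a (k - 2 * a) t) ∧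
      ι a (clB a (k - 2 * a) t) = clB a (k - 2 * a) t ∧ t = tb k (i + 1 + 1) ∧
      ((a = i + 1 + 1 ∧ c = cyc (O i)) ∨ (a = i + 1 ∧ c = cyc (I i))) ∧ i + 1 + 1 ≤ k / 2 := by
  obtain ⟨h, hu, rfl | rfl⟩ := hc
  · refine ⟨i + 1 + 1, by omega, h, tb k (i + 1 + 1), B.lO i h hu, ?_, rfl, Or.inl ⟨rfl, rfl⟩, h⟩
    rw [B.fix (i + 1 + 1) (by omega) h]
    exact Or.inl ⟨hu, rfl⟩
  · refine ⟨i + 1, by omega, by omega, tb k (i + 1 + 1), B.lIc i h hu, ?_, rfl,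
      Or.inr ⟨rfl, rfl⟩, h⟩
    rcases Nat.eq_zero_or_pos i with hi | hi
    · subst hi
      have e : tb k (0 + 1 + 1) = 0 := by
        have := used_two (by omega) hu
        unfold tb
        omega
      rw [e]
      exact (B.fix1 hu _).2 (Or.inl rfl)
    · rw [B.fix (i + 1) (by omega) (by omega)]
      refine Or.inr ⟨hu, ?_⟩
      rw [tb_succ h]

theorem nl_ht (B : BotD k s hk ι H O I) {i : ℕ} {c : Cyc k} (hc : c ∈ NL k O I i) : htc c = 2 := by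
  obtain ⟨a, ha, h, t, e, -⟩ := B.nl hc
  rw [e, ncB_ht]

theorem ne_nl (B : BotD k s hk ι H O I) {i a : ℕ} {c : Cyc k} (hc : c ∈ NE ι a)
    (hc' : c ∈ NL k O I i) : False := by
  obtain ⟨b, hb, h, t, e, e2, -⟩ := B.nl hc'
  obtain ⟨ha, h', q, hq, e3⟩ := hc
  have h1 := ncB_pk ha h' q
  rw [e3, e, ncB_pk] at h1
  have h2 : a = b := by omega
  subst h2
  rw [e] at e3
  have h3 := ncB_inj _ _ e3
  rw [h3] at hq
  exact hq e2

theorem nl_nl (B : BotD k s hk ι H O I) {i j : ℕ} (hij : j < i) {c : Cyc k} (hc : c ∈ NL k O I j)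
    (hc' : c ∈ NL k O I i) : False := by
  obtain ⟨a, ha, h, t, e, -, e3, e4, e5⟩ := B.nl hc
  obtain ⟨a', ha', h', t', e', -, e3', e4', e5'⟩ := B.nl hc'
  have h1 := congrArg pkc (e.symm.trans e')
  rw [ncB_pk, ncB_pk] at h1
  have h2 : a = a' := by omega
  subst h2
  have h3 : j + 1 = i ∧ a = i + 1 := by
    rcases e4 with ⟨x, -⟩ | ⟨x, -⟩ <;> rcases e4' with ⟨y, -⟩ | ⟨y, -⟩ <;> omega
  obtain ⟨rfl, rfl⟩ := h3
  have h4 := ncB_inj _ _ (e.symm.trans e')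
  have h5 : tb k (j + 1 + 1 + 1) = 1 - tb k (j + 1 + 1) := tb_succ e5'
  have h6 : tb k (j + 1 + 1) = 0 ∨ tb k (j + 1 + 1) = 1 := by
    unfold tb
    omega
  have h7 := cl_ne (a := j + 1 + 1) (m := k - 2 * (j + 1 + 1)) (by omega) (by omega)
  rw [e3, e3', h5] at h4
  rcases h6 with h6 | h6
  · rw [h6] at h4
    exact h7 h4
  · rw [h6] at h4
    exact h7 h4.symm

theorem sysL (B : BotD k s hk ι H O I) (i : ℕ) : HasSys {c | 3 ≤ htc c} (NL k O I i)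
    (WL k H O I i) ∅ := by
  by_cases h : i + 1 + 1 ≤ k / 2 ∧ used k (i + 1 + 1)
  · obtain ⟨h, hu⟩ := h
    have hs := B.lS i h hu {c | 3 ≤ htc c} (by
      change 3 ≤ htc (cyc (H i))
      rw [htc_cyc, B.lht i h hu])
    have e : {x | x = cyc (O i) ∨ x = cyc (I i)} = NL k O I i := by
      ext c
      exact ⟨fun hc => ⟨h, hu, hc⟩, fun hc => hc.2.2⟩
    rw [e] at hs
    exact hs.mono (fun w hw => ⟨h, hu, hw⟩) (fun _ hx => hx)
  · have e : NL k O I i = ∅ := by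
      ext c
      constructor
      · rintro ⟨h1, h2, -⟩
        exact absurd ⟨h1, h2⟩ h
      · intro hc
        exact absurd hc (Set.notMem_empty _)
    rw [e]
    exact sys_empty _ _ _

/-- what a word of a link is -/
theorem wl (B : BotD k s hk ι H O I) {i : ℕ} {w : X k} (hw : w ∈ WL k H O I i) :
    (w = H i ∧ ht w.1 = 3 ∧ pkn w.1 = k - (i + 1 + 1) ∧ (∀ P, w.1 ≠ P △ .nil) ∧
      i + 1 + 1 ≤ k / 2 ∧ used k (i + 1 + 1)) ∨ cyc w ∈ NL k O I i := by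
  obtain ⟨h, hu, rfl | rfl | rfl⟩ := hw
  · exact Or.inl ⟨rfl, B.lht i h hu, B.lpk i h hu, B.lpr i h hu, h, hu⟩
  · exact Or.inr ⟨h, hu, Or.inl rfl⟩
  · exact Or.inr ⟨h, hu, Or.inr rfl⟩

theorem sysL_all (B : BotD k s hk ι H O I) : HasSys {c | 3 ≤ htc c}
    {c | ∃ i < k / 2, c ∈ NL k O I i} {w | ∃ i < k / 2, w ∈ WL k H O I i} ∅ := by
  apply sys_range _ (NL k O I) (WL k H O I)
  · intro i _
    exact B.sysL i
  · intro i _ j hj c hc hc'
    exact B.nl_nl hj hc hc'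
  · intro i _ j hj w hw hw'
    rcases B.wl hw with ⟨-, a1, a2, -, a3, -⟩ | a
    · rcases B.wl hw' with ⟨-, b1, b2, -, b3, -⟩ | b
      · omega
      · have := B.nl_ht b
        rw [htc_cyc] at this
        omega
    · rcases B.wl hw' with ⟨-, b1, b2, -⟩ | b
      · have := B.nl_ht a
        rw [htc_cyc] at this
        omega
      · exact B.nl_nl hj a b

theorem sysEL (B : BotD k s hk ι H O I) : HasSys {c | 3 ≤ htc c}
    ({c | ∃ i < k / 2, c ∈ NE ι (i + 1)} ∪ {c | ∃ i < k / 2, c ∈ NL k O I i})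
    ({w | ∃ i < k / 2, w ∈ WE ι (i + 1)} ∪ {w | ∃ i < k / 2, w ∈ WL k H O I i}) ∅ := by
  have h := sys_union (sysE_all ι B.inv B.hop)
    (B.sysL_all.mono_old (O' := {c | 3 ≤ htc c} ∪ {c | ∃ i < k / 2, c ∈ NE ι (i + 1)})
      (fun c hc => Or.inl hc)) (by
      rintro c ⟨i, hi, hc⟩ ⟨j, hj, hc'⟩
      exact B.ne_nl hc hc') (by
      rintro w ⟨i, hi, hw⟩ ⟨j, hj, hw'⟩
      rcases WE_cases ι (by omega) hw with ⟨f, hf, e⟩ | e
      · rcases B.wl hw' with ⟨-, b1, b2, b3, -⟩ | b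
        · apply b3 (yT (uX (i + 1)) f)
          rw [e]
          rfl
        · have := B.nl_ht b
          rw [e, htc_cyc, ht_wHa (by omega)] at this
          omega
      · rcases B.wl hw' with ⟨-, b1, b2, b3, -⟩ | b
        · have := (NE_ht e).1
          rw [htc_cyc] at this
          omega
        · exact B.ne_nl e b) (fun w _ => Set.notMem_empty w)
  exact h.mono (fun _ hw => hw) (by rintro w (h | h) <;> exact h)

end BotD

end Pool.OddHC
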