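import Pool.Agent.Work.MP_8f87b2_bot.Bot6

/-!
MP_8f87b2_co: THE BOTTOM (heights 2 and 1) as a system: the last triple, the whole system.
-/

set_option autoImplicit false

namespace Pool.OddHC

open Finset BinaryTree Pool.OddHop

variable {k : ℕ}

/-- the words of the bottom: everything of height `≤ 2`, the words `(Y)` with `Y` over `()^a`, the hosts of the used links -/
def botW (k : ℕ) (s : Bool) : Set (X k) :=
  {w | ht w.1 ≤ 2 ∨
    (∃ (a : ℕ) (_ : 1 ≤ a) (_ : a ≤ k / 2) (f : ZMod (2 * a + 1) → ℕ)
      (hf : a + pkn (uX a).1 + (∑ z, f z + 1) = k), w = wH (uX a) f hf) ∨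
    ∃ b, 1 ≤ b ∧ b + 1 ≤ k / 2 ∧ used k (b + 1) ∧ w.1 = lkh s b (k - 2 * (b + 1)) (tb k (b + 1))}

variable {s : Bool} {hk : 6 ≤ k} {ι : ∀ a, QB k a → QB k a} {H O I : ℕ → X k}

namespace BotD

/-- the new cycles before the last triple -/
def N0 (ι : ∀ a, QB k a → QB k a) (O I : ℕ → X k) : Set (Cyc k) :=
  {c | ∃ i < k / 2, c ∈ NE ι (i + 1)} ∪ {c | ∃ i < k / 2, c ∈ NL k O I i}
def W0 (ι : ∀ a, QB k a → QB k a) (H O I : ℕ → X k) : Set (X k) :=
  {w | ∃ i < k / 2, w ∈ WE ι (i + 1)} ∪ {w | ∃ i < k / 2, w ∈ WL k H O I i}

theorem ht_uk (hk : 6 ≤ k) : htc (cyc (uX k)) = 1 := by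
  rw [htc_cyc]
  exact ht_uT' k (by omega)

theorem N0_ht (B : BotD k s hk ι H O I) {c : Cyc k} (hc : c ∈ N0 ι O I) : htc c = 2 := by
  rcases hc with ⟨i, _, hc⟩ | ⟨i, _, hc⟩
  · exact (NE_ht hc).1
  · exact B.nl_ht hc

/-- a word of `W0` of height 2 is on a new cycle -/
theorem W0_two (B : BotD k s hk ι H O I) {w : X k} (hw : w ∈ W0 ι H O I) (h : ht w.1 ≤ 2) :
    cyc w ∈ N0 ι O I := by
  rcases hw with ⟨i, hi, hw⟩ | ⟨i, hi, hw⟩
  · rcases WE_cases ι (by omega) hw with ⟨f, hf, e⟩ | e
    · rw [e, ht_wHa (by omega)] at h
      omega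
    · exact Or.inl ⟨i, hi, e⟩
  · rcases B.wl hw with ⟨-, a, -⟩ | e
    · omega
    · exact Or.inr ⟨i, hi, e⟩

/-- fixed classes of the first node are in `N0` only by the first link -/
theorem N0_one (B : BotD k s hk ι H O I) {q : QB k 1} (hq : ι 1 q = q)
    (hc : ncB (by omega) (by omega) q ∈ N0 ι O I) : used k 2 ∧ q = clB 1 (k - 2 * 1) 0 := by
  rcases hc with ⟨i, hi, ha, h, q', hq', e⟩ | ⟨i, hi, hc⟩
  · exfalso
    have h1 := congrArg pkc e
    rw [ncB_pk, ncB_pk] at h1
    have h2 : i = 0 := by omega
    subst h2
    have h3 := ncB_inj _ _ e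
    rw [h3] at hq'
    exact hq' hq
  · have hu : used k (i + 1 + 1) := hc.2.1
    obtain ⟨a, ha, h, t, e, e1, e2, e3, e4⟩ := B.nl hc
    have h1 := congrArg pkc e
    rw [ncB_pk, ncB_pk] at h1
    have h2 : a = 1 := by omega
    subst h2
    have h3 : i = 0 := by
      rcases e3 with ⟨x, -⟩ | ⟨x, -⟩ <;> omega
    subst h3
    have h4 := ncB_inj _ _ e
    have e5 : tb k (0 + 1 + 1) = 0 := by
      have := used_two (by omega) hu
      unfold tb
      omega
    rw [e2, e5] at h4
    exact ⟨hu, h4⟩

/-- **THE WHOLE BOTTOM with the last triple** -/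
theorem sys (B : BotD k s hk ι H O I) :
    HasSys {c : Cyc k | 3 ≤ htc c} {c | htc c ≤ 2} (botW k s) ∅ := by
  have hk1 : 1 ≤ k / 2 := by omega
  have hu1 := ht_uk hk
  -- the last system
  obtain ⟨Y, H1, hY, hYn, hYf, hnew, hW1, hlast⟩ : ∃ (Y H1 : X k), htc (cyc Y) = 2 ∧
      cyc Y ∉ N0 ι O I ∧
      (∀ q : QB k 1, ι 1 q = q → ncB (by omega) (by omega) q ∉ N0 ι O I →
        ncB (by omega) (by omega) q = cyc Y) ∧
      (ht H1.1 = 2) ∧ H1 ∉ W0 ι H O I ∧
      HasSys ({c | 3 ≤ htc c} ∪ N0 ι O I) {x | x = cyc Y ∨ x = cyc (uX k)}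
        {w | w = H1 ∨ w = Y ∨ w = uX k} ∅ := by
    by_cases hu : used k 2
    · obtain ⟨H1, Y, a1, a2, a3, a4⟩ := last_used (k := k) s (m := k - 2 * 1) (by omega) (by omega)
        (hkb hk1)
      have hfY : ι 1 (ycl s (by omega)) = ycl s (by omega) := (B.fix1 hu _).2 (Or.inr rfl)
      have hneY : (ycl s (show 1 ≤ k - 2 * 1 by omega)) ≠ clB 1 (k - 2 * 1) 0 := by
        rw [cl_zero]
        intro h
        cases s
        · exact pile_ne_near (m := k - 2 * 1) (one_dvd (2 * 1 + 1)) (by omega) 0 (0 - 1) (by decide) h.symm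
        · exact pile_ne_near (m := k - 2 * 1) (one_dvd (2 * 1 + 1)) (by omega) 0 (0 + 1) (by decide) h.symm
      have hH1 : cyc H1 ∈ NL k O I 0 := by
        refine ⟨by omega, hu, Or.inr ?_⟩
        rw [B.lIc 0 (by omega) hu]
        have e5 : tb k (0 + 1 + 1) = 0 := by
          have := used_two (by omega) hu
          unfold tb
          omega
        rw [e5]
        exact a1
      have hH1t : ht H1.1 = 2 := by
        have := B.nl_ht hH1
        rwa [htc_cyc] at this
      refine ⟨Y, H1, ?_, ?_, ?_, hH1t, ?_, ?_⟩
      · rw [a3, htc_fc]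
      · intro h
        rw [a3] at h
        exact hneY (B.N0_one hfY h).2
      · intro q hq hn
        rcases (B.fix1 hu q).1 hq with h | h
        · exfalso
          apply hn
          refine Or.inr ⟨0, by omega, ?_⟩
          rw [h]
          rw [a1] at hH1
          exact hH1
        · rw [h]
          exact a3.symm
      · intro hw
        rcases hw with ⟨i, hi, hw⟩ | ⟨i, hi, hw⟩
        · rcases WE_cases ι (by omega) hw with ⟨f, hf, e⟩ | e
          · rw [e, ht_wHa (by omega)] at hH1t
            omega
          · exact B.ne_nl e hH1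
        · obtain ⟨h, hu', hw⟩ := hw
          rcases Nat.eq_zero_or_pos i with hi0 | hi0
          · subst hi0
            rcases hw with hw | hw | hw
            · have := B.lht 0 h hu'
              rw [← hw] at this
              omega
            · have h5 := B.lO 0 h hu'
              rw [← hw, a1] at h5
              have h6 := congrArg pkc h5
              rw [pkc_fc, ncB_pk] at h6
              omega
            · apply a2
              rw [hw, B.lI h hu', show k - 2 * (0 + 1 + 1) = k - 2 * 1 - 2 by omega]
          · rcases hw with hw | hw | hw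
            · have := B.lht i h hu'
              rw [← hw] at this
              omega
            · exact B.nl_nl hi0 hH1 ⟨h, hu', Or.inl (by rw [hw])⟩
            · exact B.nl_nl hi0 hH1 ⟨h, hu', Or.inr (by rw [hw])⟩
      · exact a4 _ (Or.inr (Or.inr ⟨0, by omega, hH1⟩))
    · obtain ⟨H1, Y, b1, b2, b3, b4, b5⟩ := last_free (k := k) (m := k - 2 * 1) (by omega)
        (by omega) (hkb hk1)
      have hfY : ι 1 (clB 1 (k - 2 * 1) 0) = clB 1 (k - 2 * 1) 0 := (B.fix1' hu _).2 rfl
      have hmv : ι 1 (ycl true (show 1 ≤ k - 2 * 1 by omega)) ≠ ycl true (by omega) := by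
        rw [Ne, B.fix1' hu, cl_zero]
        intro h
        exact pile_ne_near (m := k - 2 * 1) (one_dvd (2 * 1 + 1)) (by omega) 0 (0 + 1) (by decide) h.symm
      have hH1 : cyc H1 ∈ NE ι (0 + 1) := ⟨by omega, by omega, ycl true (by omega), hmv, b3.symm⟩
      have hH1t : ht H1.1 = 2 := by
        have := (NE_ht hH1).1
        rwa [htc_cyc] at this
      refine ⟨Y, H1, ?_, ?_, ?_, hH1t, ?_, ?_⟩
      · rw [b4, htc_fc]
      · intro h
        rw [b4] at h
        exact hu (B.N0_one hfY h).1
      · intro q hq hn
        rw [(B.fix1' hu q).1 hq]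
        exact b4.symm
      · intro hw
        rcases hw with ⟨i, hi, hw⟩ | ⟨i, hi, hw⟩
        · rcases Nat.eq_zero_or_pos i with hi0 | hi0
          · subst hi0
            obtain ⟨h, f, hf, a1, a2', a3', a4'⟩ := hw
            rcases a4' with a4' | a4' | a4'
            · rw [a4', ht_wHa (by omega)] at hH1t
              omega
            · -- `Y()` with `Y = (()^(k-2))`
              have e1 : H1.1 = app (ins (uX 1).1 (lf f)) (.nil △ .nil) := congrArg Subtype.val a4'
              rw [← ins_back (uX 1) f, b2] at e1
              obtain ⟨-, e2⟩ := ins_inj (t := uT 1) (by rw [lf_length]; rfl) (by rw [lf_length]; rfl) e1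
              have e3 := lf_inj e2
              have e4 : ∀ z : ZMod (2 * 1 + 1), f z = if z = 0 + 1 then k - 2 * 1 - 1 else 0 := by
                intro z
                have h5 := congrFun e3 z
                change (if z = 0 + 1 then k - 2 * 1 - 1 else 0) + (if z = 0 + 1 + 1 then 1 else 0) =
                  f z + (if z = -1 then 1 else 0) at h5
                have h6 : (z = 0 + 1 + 1) ↔ z = -1 := by
                  have : ∀ z : ZMod (2 * 1 + 1), (z = 0 + 1 + 1) ↔ z = -1 := by decide
                  exact this z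
                simp only [h6] at h5
                omega
              have c1 : qB f hf (-1) = ycl true (by omega) := by
                change _ = Quotient.mk _ (nearMs (show 1 ≤ k - 2 * 1 by omega) (0 : ZMod (2 * 1 + 1)) (0 + 1))
                rw [← near_rot (show 1 ≤ k - 2 * 1 by omega) (1 : ZMod (2 * 1 + 1)) 0 (0 + 1)]
                unfold qB
                congr 1
                apply Subtype.ext
                funext z
                change f z + (if z = -1 then 1 else 0) =
                  (if z = 0 + 1 then k - 2 * 1 - 1 else 0) + (if z = 0 + 1 + 1 then 1 else 0)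
                have h6 : (z = 0 + 1 + 1) ↔ z = -1 := by
                  have : ∀ z : ZMod (2 * 1 + 1), (z = 0 + 1 + 1) ↔ z = -1 := by decide
                  exact this z
                simp only [h6]
                rw [e4]
              have c2 : qB f hf 0 = ycl false (by omega) := by
                change _ = Quotient.mk _ (nearMs (show 1 ≤ k - 2 * 1 by omega) (0 : ZMod (2 * 1 + 1)) (0 - 1))
                rw [← near_rot (show 1 ≤ k - 2 * 1 by omega) (1 : ZMod (2 * 1 + 1)) 0 (0 - 1)]
                unfold qB
                congr 1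
                apply Subtype.ext
                funext z
                change f z + (if z = 0 then 1 else 0) =
                  (if z = 0 + 1 then k - 2 * 1 - 1 else 0) + (if z = 0 - 1 + 1 then 1 else 0)
                have h6 : (z = 0 - 1 + 1) ↔ z = 0 := by
                  have : ∀ z : ZMod (2 * 1 + 1), (z = 0 - 1 + 1) ↔ z = 0 := by decide
                  exact this z
                simp only [h6]
                rw [e4]
              apply B.far hu
              rw [← c1, ← c2]
              exact a2'
            · have e1 : H1.1 = .nil △ yT (uX 1) f := congrArg Subtype.val a4'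
              rw [b1] at e1
              injection e1 with _ e2 _
              have e3 := uT_num (k - 2 * 1)
              rw [e2, nz] at e3
              omega
          · have hh := WE_cases ι (by omega) hw
            rcases hh with ⟨f, hf, e⟩ | e
            · rw [e, ht_wHa (by omega)] at hH1t
              omega
            · obtain ⟨x1, x2, x3, x4⟩ := NE_ht e
              obtain ⟨y1, y2, y3, y4⟩ := NE_ht hH1
              omega
        · rcases B.wl hw with ⟨-, x, -⟩ | x
          · omega
          · obtain ⟨a, ha, h, t, e, e1, e2, e3, e4⟩ := B.nl x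
            have h5 := (NE_ht hH1).2.1
            rw [e, ncB_pk] at h5
            have h6 : a = 1 := by omega
            subst h6
            have h7 : i = 0 := by
              rcases e3 with ⟨y, -⟩ | ⟨y, -⟩ <;> omega
            subst h7
            exact hu x.2.1
      · exact b5 _ (Or.inr (Or.inl ⟨0, by omega, hH1⟩))
  -- union
  have h0 : HasSys {c | 3 ≤ htc c} (N0 ι O I) (W0 ι H O I) ∅ := B.sysEL
  have h1 := sys_union h0 hlast (by
    intro c hc hc'
    rcases hc' with h | h
    · rw [h] at hc
      exact hYn hc
    · have := B.N0_ht hc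
      rw [h, hu1] at this
      omega) (by
    rintro w hw (h | h | h)
    · rw [h] at hw
      exact hW1 hw
    · apply hYn
      rw [h] at hw
      exact B.W0_two hw (by rw [htc_cyc] at hY; omega)
    · have h2 := B.W0_two hw (by rw [h]; rw [htc_cyc] at hu1; omega)
      have := B.N0_ht h2
      rw [h, hu1] at this
      omega) (fun w _ => Set.notMem_empty w)
  have eN : N0 ι O I ∪ {x | x = cyc Y ∨ x = cyc (uX k)} = {c | htc c ≤ 2} := by
    ext c
    constructor
    · rintro (hc | hc | hc)
      · exact (B.N0_ht hc).le
      · rw [hc]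
        exact hY.le
      · rw [hc]
        change htc _ ≤ 2
        omega
    · intro hc
      obtain ⟨w, rfl⟩ := Quotient.exists_rep c
      change cyc w ∈ _
      change htc (cyc w) ≤ 2 at hc
      rw [htc_cyc] at hc
      rcases (by omega : ht w.1 ≤ 1 ∨ ht w.1 = 2) with h | h
      · exact Or.inr (Or.inr (by rw [ht_lowX w h]))
      · obtain ⟨a, m, hkm, x, ha, hw⟩ := low_class w h
        have hm : m = k - 2 * a := by omega
        subst hm
        have hak : a ≤ k / 2 := by omega
        have e : cyc w = ncB ha hak (Quotient.mk _ x) := by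
          rw [hw]
          rfl
        by_cases hq : ι a (Quotient.mk _ x) = Quotient.mk _ x
        · rcases (by omega : a = 1 ∨ 2 ≤ a) with ha1 | ha1
          · subst ha1
            by_cases hn : ncB ha hak (Quotient.mk _ x) ∈ N0 ι O I
            · left
              rw [e]
              exact hn
            · right
              left
              rw [e]
              exact hYf _ hq hn
          · left
            right
            rcases (B.fix a ha1 hak _).1 hq with ⟨h2, h3⟩ | ⟨h2, h3⟩
            · obtain ⟨i, rfl⟩ : ∃ i, a = i + 1 + 1 := ⟨a - 2, by omega⟩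
              refine ⟨i, by omega, hak, h2, Or.inl ?_⟩
              rw [B.lO i hak h2, e, h3]
            · have ha2 : a + 1 ≤ k / 2 := by
                by_contra hc2
                have : a = k / 2 := by omega
                subst this
                exact used_top k h2
              obtain ⟨i, rfl⟩ : ∃ i, a = i + 1 := ⟨a - 1, by omega⟩
              refine ⟨i, by omega, ha2, h2, Or.inr ?_⟩
              rw [B.lIc i ha2 h2, e, h3, tb_succ ha2]
        · left
          left
          obtain ⟨i, rfl⟩ : ∃ i, a = i + 1 := ⟨a - 1, by omega⟩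
          exact ⟨i, by omega, ha, hak, _, hq, e.symm⟩
  rw [eN] at h1
  refine h1.mono ?_ (by rintro w (h | h) <;> exact h)
  rintro w (hw | hw | hw | hw)
  · rcases hw with ⟨i, hi, hw⟩ | ⟨i, hi, hw⟩
    · rcases WE_cases ι (by omega) hw with ⟨f, hf, e⟩ | e
      · exact Or.inr (Or.inl ⟨i + 1, by omega, by omega, f, hf, e⟩)
      · left
        have := (NE_ht e).1
        rw [htc_cyc] at this
        omega
    · rcases B.wl hw with ⟨e, e1, e2, e3, e4, e5⟩ | e
      · refine Or.inr (Or.inr ⟨i + 1, by omega, e4, e5, ?_⟩)
        rw [e]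
        exact B.lH i e4 e5
      · left
        have := B.nl_ht e
        rw [htc_cyc] at this
        omega
  · left
    rw [hw]
    exact hnew.le
  · left
    rw [hw]
    rw [htc_cyc] at hY
    exact hY.le
  · left
    rw [hw]
    rw [htc_cyc] at hu1
    omega

end BotD

/-- **THE BOTTOM** -/
theorem bot_sys (k : ℕ) (hk : 6 ≤ k) (s : Bool) :
    HasSys {c : Cyc k | 3 ≤ htc c} {c | htc c ≤ 2} (botW k s) ∅ := by
  obtain ⟨ι, H, O, I, B⟩ := bot_data s hk
  exact B.sys

end Pool.OddHC
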