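import Pool.Agent.Work.MP_8f87b2_bot.Bot7
import Pool.Agent.Work.MP_8f87b2_top.Ham8

/-!
MP_8f87b2_co: THE FRAME OF THE WHOLE PROOF: only the middle heights `3 .. k-4` are left.
-/

set_option autoImplicit false

namespace Pool.OddHC

open Finset BinaryTree Pool.OddHop

theorem topW8_ht {d : ℕ} (hd : 1 ≤ d) {w : X (d + 5)} (h : w ∈ topW8 d) : d + 2 ≤ ht w.1 := by
  rcases h with ((⟨i, hi, rfl⟩ | ⟨f, hf, h0, h1⟩) | ⟨-, h⟩) | ⟨f, hf, h1⟩
  · rw [h_iht hd]
    interval_cases i <;> simp [i8]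
  · rcases h1 with h1 | ⟨h1, -⟩
    · rw [h1, ht_H2]
      omega
    · have := (n2_ht h1).1
      rw [htc_cyc] at this
      omega
  · rcases h with h | h | h
    · rw [h, ht_zA]
    · rw [h, ht_zB]
      omega
    · rw [h, ht_zC]
  · rcases h1 with h1 | ⟨h1, -⟩
    · rw [h1, ht_H4]
      omega
    · have := h1.1
      rw [htc_cyc] at this
      omega

theorem ht_lkh (s : Bool) {b m t : ℕ} (hb : 1 ≤ b) : ht (lkh s b m t) = 3 := by
  unfold lkh
  by_cases h : b = 1
  · rw [if_pos h]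
    cases s
    · change max (ht tw2 + 1) (ht (uT (m + 1))) = 3
      rw [ht_uT' _ (by omega)]
      rfl
    · change ht (app (uT (m + 1)) (tw2 △ .nil)) = 3
      rw [app_uT, ht_lvb _ _ (by decide)]
      rfl
  · rw [if_neg h]
    change max (ht (lP b m t) + 1) (max (0 + 1) 0) = 3
    unfold lP
    rw [ht_yT _ _ hb]
    change max (ht (uT b) + 1 + 1) _ = 3
    rw [ht_uT' b hb]
    rfl

theorem botW_ht {k : ℕ} {s : Bool} {w : X k} (h : w ∈ botW k s) : ht w.1 ≤ 3 := by
  rcases h with h | ⟨a, ha, hak, f, hf, rfl⟩ | ⟨b, hb, hb', hu, h⟩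
  · omega
  · rw [ht_wHa ha]
  · rw [h, ht_lkh s hb]

/-- **ONLY THE MIDDLE IS LEFT** (`k = d + 5`): a system for the cycles of the heights `3 .. k-4`, where everything of
height `≥ k-3` is old, whose words avoid the words of the top and of the bottom, and whose inner words avoid the words
of the top -/
theorem ham_of_middle {d : ℕ} (hd : 3 ≤ d) (s : Bool) {W I : Set (X (d + 5))}
    (h : HasSys {c : Cyc (d + 5) | d + 2 ≤ htc c} {c | 3 ≤ htc c ∧ htc c < d + 2} W I)
    (hT : ∀ w ∈ topW8 d, w ∉ W) (hTI : ∀ w ∈ topW8 d, w ∉ I) (hB : ∀ w ∈ W, w ∉ botW (d + 5) s) :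
    2 * (d + 5) + 1 ∈ Pool.Agent.Work.MP_8f87b2_co.compressionSet
      (Pool.Agent.Work.MP_8f87b2_co.oddGraph (d + 5)) := by
  have hb := (bot_sys (d + 5) (by omega) s).mono_old
    (O' := {c : Cyc (d + 5) | d + 2 ≤ htc c} ∪ {c | 3 ≤ htc c ∧ htc c < d + 2}) (by
      intro c hc
      change 3 ≤ htc c at hc
      by_cases h1 : d + 2 ≤ htc c
      · exact Or.inl h1
      · exact Or.inr ⟨hc, by omega⟩)
  have h1 := sys_union h hb (by
    rintro c ⟨hc, -⟩ hc'
    change htc c ≤ 2 at hc'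
    omega) hB (fun w _ => Set.notMem_empty w)
  have e : {c : Cyc (d + 5) | 3 ≤ htc c ∧ htc c < d + 2} ∪ {c | htc c ≤ 2} = {c | htc c < d + 2} := by
    ext c
    constructor
    · rintro (hc | hc)
      · exact hc.2
      · change htc c ≤ 2 at hc
        change htc c < d + 2
        omega
    · intro hc
      change htc c < d + 2 at hc
      by_cases h1 : 3 ≤ htc c
      · exact Or.inl ⟨h1, hc⟩
      · exact Or.inr (by change htc c ≤ 2; omega)
  rw [e] at h1
  refine ham_of_parts8 hd h1 ?_ ?_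
  · rintro w hw (h2 | h2)
    · exact hT w hw h2
    · have h3 := topW8_ht (by omega) hw
      have h4 := botW_ht h2
      omega
  · rintro w hw (h2 | h2)
    · exact hTI w hw h2
    · exact h2

end Pool.OddHC
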